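import Mathlib
import Pool.Agent.Y428.Ab.Fin

/-!
# The theorem of Bondy and Simonovits
-/

set_option autoImplicit false

open Finset Classical SimpleGraph Pool.Agent.Y428.Ab

namespace Pool.Agent.W5h94.RK

theorem near_regular (K k : ℕ) (hk : 2 ≤ k) (V : Type) [Fintype V] [Nonempty V]
    (Y : SimpleGraph V) (c : V → Bool) (hc : ∀ u v, Y.Adj u v → c u ≠ c v) (D : ℕ) (hD : 1 ≤ D)
    (hdl : ∀ x, D ≤ (Finset.univ.filter (fun w => Y.Adj x w)).card)
    (hdu : ∀ x, (Finset.univ.filter (fun w => Y.Adj x w)).card ≤ K * D)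
    (h : (3 * (k + 1) ^ 2 * K + 1) ^ k * Fintype.card V ≤ D ^ k) : cycleGraph (2 * k) ⊑ Y := by
  by_contra hfree
  have hd1 : ∀ x, 1 ≤ (Finset.univ.filter (fun w => Y.Adj x w)).card := fun x => hD.trans (hdl x)
  have h1 := coin c hc hd1 (K * D) hdu k (by omega)
  have h2 : a Y k = ∑ u, ∑ v, (Bad Y k u v).card := by
    rw [a_sq]
    refine Finset.sum_congr rfl fun u _ => Finset.sum_congr rfl fun v _ => ?_
    have : Bad Y k u v = F Y k u v ×ˢ F Y k u v := by
      unfold Bad
      rw [Finset.filter_eq_self]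
      rintro ⟨P, Q⟩ hp hg
      rw [Finset.mem_product, mem_F, mem_F] at hp
      exact hfree (cyc_of_good _ k hk P Q hp.1 hp.2 hg)
    rw [this, Finset.card_product]
    unfold W
    ring
  obtain ⟨k', rfl⟩ : ∃ k', k = k' + 1 := ⟨k - 1, by omega⟩
  have h3 : a Y (k' + 1) ≤ (3 * (k' + 1 + 1) ^ 2 * K * D) * a Y k' := by
    rw [h2]
    refine h1.trans (le_of_eq ?_)
    rw [Nat.add_sub_cancel]
    ring
  have h4 := lc_down (fun i => a_logconvex Y i) (a_pos Y hd1) k' _ h3 (k' + 1) le_rfl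
  rw [a_zero] at h4
  have h5 := a_ge Y D hdl (k' + 1)
  have h6 : D ^ (k' + 1) ≤ (3 * (k' + 1 + 1) ^ 2 * K) ^ (k' + 1) * Fintype.card V := by
    have h7 : 0 < D ^ (k' + 1) := pow_pos hD _
    refine Nat.le_of_mul_le_mul_left ?_ h7
    calc D ^ (k' + 1) * D ^ (k' + 1) ≤ _ := h5.trans h4
      _ = _ := by rw [mul_pow]; ring
  have h8 : (3 * (k' + 1 + 1) ^ 2 * K) ^ (k' + 1) < (3 * (k' + 1 + 1) ^ 2 * K + 1) ^ (k' + 1) :=
    Nat.pow_lt_pow_left (Nat.lt_succ_self _) (by omega)
  have h9 : 0 < Fintype.card V := Fintype.card_pos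
  have h10 := Nat.mul_lt_mul_of_pos_right h8 h9
  omega

/-- the trivial action -/
def trivAct (V : Type) : MulAction PUnit.{1} V where
  smul _ v := v
  one_smul _ := rfl
  mul_smul _ _ _ := rfl

/-- **Bondy and Simonovits**: a graph with `n` vertices and `e` edges without `C_{2k}` satisfies
`e ^ k ≤ C * n ^ (k + 1)`. -/
theorem bondy_simonovits (k : ℕ) (hk : 2 ≤ k) : ∃ C : ℕ, ∀ (V : Type) [Finite V]
    (X : SimpleGraph V), (cycleGraph (2 * k)).Free X →
    X.edgeSet.ncard ^ k ≤ C * Nat.card V ^ (k + 1) := by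
  obtain ⟨C, hC⟩ := assemble k (2 * k) 2 hk (fun K => 3 * (k + 1) ^ 2 * K + 1)
    (fun K => Nat.succ_pos _)
  refine ⟨C, fun V _ X hX => ?_⟩
  letI act := trivAct V
  have h1 := hC PUnit V X (fun g a c h => h) (fun g a _ => rfl) ?_ ?_ hX
  · refine h1.trans ?_
    rw [pow_succ]
    refine Nat.mul_le_mul_left _ (Nat.mul_le_mul_left _ ?_)
    exact Nat.card_le_card_of_surjective (Quotient.mk _) Quotient.mk_surjective
  · intro K hK
    intro W _ _ _ Y c hc D hD hdl hdu hB f hf
    have hdd : ∀ x : PUnit × W, (Finset.univ.filter (fun w => (der Y f hf).Adj x w)).card =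
        (Finset.univ.filter (fun w => Y.Adj x.2 w)).card := fun x => by
      have := deg_der Y f hf x.1 x.2
      convert this
    refine near_regular K k hk (PUnit × W) (der Y f hf) (fun p => c p.2)
      (fun p q h => hc _ _ h.1) D hD (fun x => by rw [hdd]; exact hdl _)
      (fun x => by rw [hdd]; exact hdu _) ?_
    rw [Fintype.card_prod]
    simpa using hB
  · intro u v h
    exfalso
    have h2 : X.neighborSet u ∩ MulAction.orbit PUnit v ⊆ {v} := by
      rintro x ⟨-, g, rfl⟩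
      rfl
    have h3 := Set.encard_le_encard h2
    rw [Set.encard_singleton] at h3
    have h4 := h.trans h3
    norm_num at h4

end Pool.Agent.W5h94.RK
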