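import Mathlib
import Pool.Agent.W5h17.DM.Paths

/-!
# Degenerate relations and sums of squares
-/

set_option autoImplicit false

open Finset Classical

namespace Pool.Agent.W5h94.RK

/-- every non-empty part of the relation between `S` and `T` has an element of degree at most `D` -/
def Dgn {α β : Type*} (R : α → β → Prop) (D : ℕ) (S : Finset α) (T : Finset β) : Prop :=
  ∀ S' ⊆ S, ∀ T' ⊆ T, (S'.Nonempty ∨ T'.Nonempty) →
    (∃ x ∈ S', (T'.filter (fun t => R x t)).card ≤ D) ∨
      (∃ t ∈ T', (S'.filter (fun x => R x t)).card ≤ D)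

/-- the pairs can be assigned to their elements such that each element gets at most `D` pairs -/
theorem assign {α β : Type*} (R : α → β → Prop) (D : ℕ) : ∀ (n : ℕ) (S : Finset α) (T : Finset β),
    S.card + T.card = n → Dgn R D S T →
    ∃ A : α → β → Prop, (∀ x ∈ S, (T.filter (fun t => R x t ∧ A x t)).card ≤ D) ∧
      (∀ t ∈ T, (S.filter (fun x => R x t ∧ ¬ A x t)).card ≤ D) := by
  intro n
  induction n with
  | zero =>
    intro S T h _
    have hS : S = ∅ := Finset.card_eq_zero.1 (by omega)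
    have hT : T = ∅ := Finset.card_eq_zero.1 (by omega)
    subst hS hT
    exact ⟨fun _ _ => True, by simp, by simp⟩
  | succ n ih =>
    intro S T h hD
    have hne : S.Nonempty ∨ T.Nonempty := by
      by_contra hcon
      rw [not_or, Finset.not_nonempty_iff_eq_empty, Finset.not_nonempty_iff_eq_empty] at hcon
      rw [hcon.1, hcon.2] at h
      simp at h
    rcases hD S subset_rfl T subset_rfl hne with ⟨x0, hx0, hc⟩ | ⟨t0, ht0, hc⟩
    · have hpos : 0 < S.card := Finset.card_pos.2 ⟨x0, hx0⟩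
      obtain ⟨A, h1, h2⟩ := ih (S.erase x0) T (by rw [Finset.card_erase_of_mem hx0]; omega)
        (fun S' hS' T' hT' => hD S' (hS'.trans (Finset.erase_subset _ _)) T' hT')
      obtain ⟨B, hB⟩ : ∃ B : α → β → Prop, ∀ x t, B x t ↔ (x = x0 ∨ A x t) :=
        ⟨_, fun _ _ => Iff.rfl⟩
      refine ⟨B, fun x hx => ?_, fun t ht => ?_⟩
      · by_cases hxx : x = x0
        · subst hxx
          refine le_trans (Finset.card_le_card ?_) hc
          intro t ht
          rw [Finset.mem_filter] at ht ⊢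
          exact ⟨ht.1, ht.2.1⟩
        · refine le_trans (Finset.card_le_card ?_) (h1 x (Finset.mem_erase.2 ⟨hxx, hx⟩))
          intro t ht
          rw [Finset.mem_filter] at ht ⊢
          exact ⟨ht.1, ht.2.1, ((hB x t).1 ht.2.2).resolve_left hxx⟩
      · refine le_trans (Finset.card_le_card ?_) (h2 t ht)
        intro x hx
        rw [Finset.mem_filter, hB, not_or] at hx
        rw [Finset.mem_filter, Finset.mem_erase]
        exact ⟨⟨hx.2.2.1, hx.1⟩, hx.2.1, hx.2.2.2⟩
    · have hpos : 0 < T.card := Finset.card_pos.2 ⟨t0, ht0⟩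
      obtain ⟨A, h1, h2⟩ := ih S (T.erase t0) (by rw [Finset.card_erase_of_mem ht0]; omega)
        (fun S' hS' T' hT' => hD S' hS' T' (hT'.trans (Finset.erase_subset _ _)))
      obtain ⟨B, hB⟩ : ∃ B : α → β → Prop, ∀ x t, B x t ↔ (t ≠ t0 ∧ A x t) :=
        ⟨_, fun _ _ => Iff.rfl⟩
      refine ⟨B, fun x hx => ?_, fun t ht => ?_⟩
      · refine le_trans (Finset.card_le_card ?_) (h1 x hx)
        intro t ht
        rw [Finset.mem_filter, hB] at ht
        rw [Finset.mem_filter, Finset.mem_erase]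
        exact ⟨⟨ht.2.2.1, ht.1⟩, ht.2.1, ht.2.2.2⟩
      · by_cases htt : t = t0
        · subst htt
          refine le_trans (Finset.card_le_card ?_) hc
          intro x hx
          rw [Finset.mem_filter] at hx ⊢
          exact ⟨hx.1, hx.2.1⟩
        · refine le_trans (Finset.card_le_card ?_) (h2 t (Finset.mem_erase.2 ⟨htt, ht⟩))
          intro x hx
          rw [Finset.mem_filter] at hx ⊢
          exact ⟨hx.1, hx.2.1, fun h => hx.2.2 ((hB x t).2 ⟨htt, h⟩)⟩

/-- the sum of the squares of the weights of the neighbourhoods -/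
theorem sum_sq {α β : Type*} (R : α → β → Prop) (D : ℕ) (S : Finset α) (T : Finset β)
    (h : Dgn R D S T) (w : α → ℝ) (hw : ∀ x ∈ S, 0 ≤ w x) :
    ∑ t ∈ T, (∑ x ∈ S.filter (fun x => R x t), w x) ^ 2 ≤
      2 * D * (∑ x ∈ S, w x ^ 2 * (T.filter (fun t => R x t)).card + (∑ x ∈ S, w x) ^ 2) := by
  obtain ⟨A, hA1, hA2⟩ := assign R D _ S T rfl h
  set W : ℝ := ∑ x ∈ S, w x with hW
  have hW0 : 0 ≤ W := Finset.sum_nonneg hw
  have h1 : ∀ t ∈ T, (∑ x ∈ S.filter (fun x => R x t), w x) ^ 2 ≤
      2 * (W * ∑ x ∈ S.filter (fun x => R x t ∧ A x t), w x) +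
      2 * (D * ∑ x ∈ S.filter (fun x => R x t), w x ^ 2) := by
    intro t ht
    have e1 : ∑ x ∈ S.filter (fun x => R x t), w x =
        ∑ x ∈ S.filter (fun x => R x t ∧ A x t), w x +
        ∑ x ∈ S.filter (fun x => R x t ∧ ¬ A x t), w x := by
      rw [← Finset.sum_filter_add_sum_filter_not (S.filter (fun x => R x t)) (fun x => A x t),
        Finset.filter_filter, Finset.filter_filter]
    set a := ∑ x ∈ S.filter (fun x => R x t ∧ A x t), w x with ha
    set b := ∑ x ∈ S.filter (fun x => R x t ∧ ¬ A x t), w x with hb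
    have ha0 : 0 ≤ a := Finset.sum_nonneg fun x hx => hw x (Finset.mem_filter.1 hx).1
    have haW : a ≤ W := Finset.sum_le_sum_of_subset_of_nonneg (Finset.filter_subset _ _)
      (fun x hx _ => hw x hx)
    have hb2 : b ^ 2 ≤ D * ∑ x ∈ S.filter (fun x => R x t), w x ^ 2 := by
      have h2 : b ^ 2 ≤ ((S.filter (fun x => R x t ∧ ¬ A x t)).card : ℝ) *
          ∑ x ∈ S.filter (fun x => R x t ∧ ¬ A x t), w x ^ 2 := sq_sum_le_card_mul_sum_sq
      have h3 : ((S.filter (fun x => R x t ∧ ¬ A x t)).card : ℝ) ≤ D := by exact_mod_cast hA2 t ht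
      have h4 : ∑ x ∈ S.filter (fun x => R x t ∧ ¬ A x t), w x ^ 2 ≤
          ∑ x ∈ S.filter (fun x => R x t), w x ^ 2 := by
        refine Finset.sum_le_sum_of_subset_of_nonneg ?_ (fun x _ _ => sq_nonneg _)
        intro x hx
        rw [Finset.mem_filter] at hx ⊢
        exact ⟨hx.1, hx.2.1⟩
      refine h2.trans (mul_le_mul h3 h4 (Finset.sum_nonneg fun x _ => sq_nonneg _) (by positivity))
    rw [e1]
    have h5 : a ^ 2 ≤ W * a := by nlinarith
    nlinarith [sq_nonneg (a - b)]
  refine (Finset.sum_le_sum h1).trans ?_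
  rw [Finset.sum_add_distrib, ← Finset.mul_sum, ← Finset.mul_sum, ← Finset.mul_sum,
    ← Finset.mul_sum]
  have h6 : ∑ t ∈ T, ∑ x ∈ S.filter (fun x => R x t ∧ A x t), w x ≤ D * W := by
    have e1 : ∑ t ∈ T, ∑ x ∈ S.filter (fun x => R x t ∧ A x t), w x =
        ∑ x ∈ S, ∑ t ∈ T.filter (fun t => R x t ∧ A x t), w x := by
      simp only [Finset.sum_filter]
      rw [Finset.sum_comm]
    rw [e1, hW, Finset.mul_sum]
    refine Finset.sum_le_sum fun x hx => ?_
    rw [Finset.sum_const, nsmul_eq_mul]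
    exact mul_le_mul_of_nonneg_right (by exact_mod_cast hA1 x hx) (hw x hx)
  have h7 : ∑ t ∈ T, ∑ x ∈ S.filter (fun x => R x t), w x ^ 2 =
      ∑ x ∈ S, w x ^ 2 * (T.filter (fun t => R x t)).card := by
    simp only [Finset.sum_filter]
    rw [Finset.sum_comm]
    refine Finset.sum_congr rfl fun x _ => ?_
    rw [← Finset.sum_filter, Finset.sum_const, nsmul_eq_mul, mul_comm]
  rw [h7]
  nlinarith [mul_le_mul_of_nonneg_left h6 hW0]

variable {V : Type}

/-- in a graph without `C_{2k}` the relation between a neighbourhood and the vertices is degenerate -/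
theorem dgn_of_free [DecidableEq V] (G : SimpleGraph V) {k : ℕ} (hk : 2 ≤ k)
    (hG : (SimpleGraph.cycleGraph (2 * k)).Free G) (y : V) (S T : Finset V)
    (hS : ∀ x ∈ S, G.Adj y x) : Dgn (fun x t => G.Adj x t) (4 * k) S T := by
  intro S' hS' T' hT' hne
  by_contra hcon
  rw [not_or] at hcon
  obtain ⟨h1, h2⟩ := hcon
  push Not at h1 h2
  apply hG
  refine Pool.Agent.W5h17.DM.dense_cycle hk y T' S' (fun b hb => hS b (hS' hb)) ?_
  have e1 : ((T' ×ˢ S').filter (fun q => G.Adj q.1 q.2)).card =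
      ∑ t ∈ T', (S'.filter (fun x => G.Adj x t)).card := by
    rw [Finset.card_filter, Finset.sum_product]
    refine Finset.sum_congr rfl fun t _ => ?_
    rw [Finset.card_filter]
    refine Finset.sum_congr rfl fun x _ => ?_
    simp only [G.adj_comm]
  have e2 : ((T' ×ˢ S').filter (fun q => G.Adj q.1 q.2)).card =
      ∑ x ∈ S', (T'.filter (fun t => G.Adj x t)).card := by
    rw [Finset.card_filter, Finset.sum_product_right]
    refine Finset.sum_congr rfl fun x _ => ?_
    rw [Finset.card_filter]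
    refine Finset.sum_congr rfl fun t _ => ?_
    simp only [G.adj_comm]
  have h3 : T'.card * (4 * k + 1) ≤ ((T' ×ˢ S').filter (fun q => G.Adj q.1 q.2)).card := by
    rw [e1, ← smul_eq_mul]
    exact Finset.card_nsmul_le_sum _ _ _ fun t ht => h2 t ht
  have h4 : S'.card * (4 * k + 1) ≤ ((T' ×ˢ S').filter (fun q => G.Adj q.1 q.2)).card := by
    rw [e2, ← smul_eq_mul]
    exact Finset.card_nsmul_le_sum _ _ _ fun x hx => h1 x hx
  have h5 : 0 < T'.card + S'.card := by
    rcases hne with h | h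
    · have := Finset.card_pos.2 h
      omega
    · have := Finset.card_pos.2 h
      omega
  nlinarith

end Pool.Agent.W5h94.RK
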