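import Mathlib

/-!
# Leverage scores

For a real matrix `L` of rank `r` there are a linear map `P` (the orthogonal projection onto the row
space) and numbers `ℓ y ≥ 0` with sum at most `r` such that `(P v y) ^ 2 ≤ ℓ y * ∑ v ^ 2`, and `P b` is
at least as close to `b` as every row of `L`.
-/

set_option autoImplicit false

open Finset

namespace Pool.Agent.W5h94.RK

theorem leverage {ι V : Type*} [Fintype ι] [Fintype V] [DecidableEq V] (L : Matrix ι V ℝ) :
    ∃ (P : (V → ℝ) →ₗ[ℝ] (V → ℝ)) (ℓ : V → ℝ), (∀ y, 0 ≤ ℓ y) ∧ ∑ y, ℓ y ≤ L.rank ∧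
      (∀ (v : V → ℝ) (y : V), (P v y) ^ 2 ≤ ℓ y * ∑ z, v z ^ 2) ∧
      (∀ (b : V → ℝ) (x : ι), ∑ z, (b z - P b z) ^ 2 ≤ ∑ z, (b z - L x z) ^ 2) := by
  classical
  let E := EuclideanSpace ℝ V
  let e : (V → ℝ) ≃ₗ[ℝ] E := (WithLp.linearEquiv 2 ℝ (V → ℝ)).symm
  let W : Submodule ℝ E := Submodule.span ℝ (Set.range fun x : ι => e (L x))
  have hWr : Module.finrank ℝ W = L.rank := by
    rw [Matrix.rank_eq_finrank_span_row]
    have h1 : W = (Submodule.span ℝ (Set.range L.row)).map (e : (V → ℝ) →ₗ[ℝ] E) := by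
      rw [Submodule.map_span, ← Set.range_comp]
      rfl
    rw [h1]
    exact LinearEquiv.finrank_map_eq e _
  let u := stdOrthonormalBasis ℝ W
  let Q : E →L[ℝ] E := W.starProjection
  let P : (V → ℝ) →ₗ[ℝ] (V → ℝ) := (e.symm : E →ₗ[ℝ] (V → ℝ)) ∘ₗ (Q : E →ₗ[ℝ] E) ∘ₗ (e : (V → ℝ) →ₗ[ℝ] E)
  have hP : ∀ v, e (P v) = Q (e v) := fun v => by simp [P]
  have hev : ∀ (v : V → ℝ) (y : V), (e v) y = v y := fun v y => rfl
  have hcoord : ∀ (v : V → ℝ) (y : V), v y = inner ℝ (EuclideanSpace.single y (1 : ℝ)) (e v) := by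
    intro v y
    rw [EuclideanSpace.inner_single_left]
    simp [hev]
  have hnorm : ∀ v : V → ℝ, ‖e v‖ ^ 2 = ∑ z, v z ^ 2 := by
    intro v
    rw [EuclideanSpace.norm_sq_eq]
    simp [hev]
  refine ⟨P, fun y => ‖Q (EuclideanSpace.single y (1 : ℝ))‖ ^ 2, fun y => by positivity, ?_, ?_, ?_⟩
  · -- the trace
    rw [← hWr]
    have h1 : ∀ y, ‖Q (EuclideanSpace.single y (1 : ℝ))‖ ^ 2 =
        ∑ i, (((u i : W) : E) y) ^ 2 := by
      intro y
      have h2 : ‖Q (EuclideanSpace.single y (1 : ℝ))‖ =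
          ‖W.orthogonalProjectionOnto (EuclideanSpace.single y (1 : ℝ))‖ := rfl
      rw [h2, ← u.sum_sq_norm_inner_right]
      refine Finset.sum_congr rfl fun i _ => ?_
      rw [Real.norm_eq_abs, sq_abs, Submodule.inner_orthogonalProjectionOnto_eq_of_mem_left,
        EuclideanSpace.inner_single_right]
      simp
    have h3 : ∑ y, ‖Q (EuclideanSpace.single y (1 : ℝ))‖ ^ 2 = ∑ i, ∑ y, (((u i : W) : E) y) ^ 2 := by
      rw [Finset.sum_comm]
      exact Finset.sum_congr rfl fun y _ => h1 y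
    have h4 : ∀ i, ∑ y, (((u i : W) : E) y) ^ 2 = 1 := by
      intro i
      have h5 : ‖((u i : W) : E)‖ = 1 := u.orthonormal.1 i
      have h6 := EuclideanSpace.norm_sq_eq ((u i : W) : E)
      rw [h5] at h6
      simp only [Real.norm_eq_abs, sq_abs, one_pow] at h6
      exact h6.symm
    have h7 : ∑ y, ‖Q (EuclideanSpace.single y (1 : ℝ))‖ ^ 2 = (Module.finrank ℝ W : ℝ) := by
      rw [h3, Finset.sum_congr rfl fun i _ => h4 i]
      simp
    exact h7.le
  · intro v y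
    rw [hcoord (P v) y, hP]
    have h1 : inner ℝ (EuclideanSpace.single y (1 : ℝ)) (Q (e v)) =
        inner ℝ (Q (EuclideanSpace.single y (1 : ℝ))) (e v) :=
      (Submodule.inner_starProjection_left_eq_right W _ _).symm
    rw [h1, ← hnorm, ← mul_pow]
    refine sq_le_sq' ?_ ?_
    · have := abs_real_inner_le_norm (Q (EuclideanSpace.single y (1 : ℝ))) (e v)
      exact (abs_le.1 this).1
    · exact real_inner_le_norm _ _
  · intro b x
    have h1 : ∀ w : V → ℝ, ∑ z, (b z - w z) ^ 2 = ‖e b - e w‖ ^ 2 := by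
      intro w
      rw [← map_sub, hnorm]
      rfl
    rw [h1, h1, hP]
    have h2 : e (L x) ∈ W := Submodule.subset_span ⟨x, rfl⟩
    have h3 : ‖e b - Q (e b)‖ ≤ ‖e b - e (L x)‖ := by
      have h4 := Submodule.starProjection_minimal (U := W) (e b)
      rw [h4]
      exact ciInf_le ⟨0, by rintro _ ⟨w, rfl⟩; exact norm_nonneg _⟩ (⟨e (L x), h2⟩ : W)
    exact pow_le_pow_left₀ (norm_nonneg _) h3 2

end Pool.Agent.W5h94.RK
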