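import Mathlib
import Pool.Agent.W5h94.RK.Lev
import Pool.Agent.W5h94.RK.Deg

/-!
# The main inequality
-/

set_option autoImplicit false

open Finset Classical

namespace Pool.Agent.W5h94.RK

variable {V : Type} [Fintype V]

/-- `B` is a weighted adjacency matrix of `G`: the entries outside of the edges are zero, the
entries on the edges have absolute values between `1` and `K`. -/
def IsWeighting (G : SimpleGraph V) (K : ℝ) (B : Matrix V V ℝ) : Prop :=
  (∀ x y, ¬ G.Adj x y → B x y = 0) ∧ ∀ x y, G.Adj x y → 1 ≤ |B x y| ∧ |B x y| ≤ K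

/-- the squared norm of a row -/
noncomputable def rowSq (B : Matrix V V ℝ) (x : V) : ℝ := ∑ y, B x y ^ 2

/-- the relative error of the approximation of the rows of `B` by the rows of `L` -/
noncomputable def relErr (B L : Matrix V V ℝ) : ℝ := ∑ x, (∑ y, (B x y - L x y) ^ 2) / rowSq B x

/-- the total weight of a column, when the squares of the entries are normalised in the rows -/
noncomputable def colW (B : Matrix V V ℝ) (y : V) : ℝ := ∑ x, B x y ^ 2 / rowSq B x

lemma rowSq_nonneg (B : Matrix V V ℝ) (x : V) : 0 ≤ rowSq B x :=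
  Finset.sum_nonneg fun _ _ => sq_nonneg _

lemma colW_nonneg (B : Matrix V V ℝ) (y : V) : 0 ≤ colW B y :=
  Finset.sum_nonneg fun _ _ => div_nonneg (sq_nonneg _) (rowSq_nonneg B _)

omit [Fintype V] in
lemma one_le_sq {G : SimpleGraph V} {K : ℝ} {B : Matrix V V ℝ} (hB : IsWeighting G K B) {x y : V}
    (h : G.Adj x y) : 1 ≤ B x y ^ 2 := by
  have h1 := (hB.2 x y h).1
  rw [← sq_abs]
  nlinarith

lemma deg_le_rowSq {G : SimpleGraph V} {K : ℝ} {B : Matrix V V ℝ} (hB : IsWeighting G K B) (x : V)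
    (T : Finset V) : ((T.filter (fun t => G.Adj x t)).card : ℝ) ≤ rowSq B x := by
  have h1 : ((T.filter (fun t => G.Adj x t)).card : ℝ) = ∑ t ∈ T.filter (fun t => G.Adj x t), 1 := by
    simp
  rw [h1]
  refine (Finset.sum_le_sum (fun t ht => one_le_sq hB (Finset.mem_filter.1 ht).2)).trans ?_
  exact Finset.sum_le_sum_of_subset_of_nonneg (Finset.subset_univ _) fun _ _ _ => sq_nonneg _

/-- the norm of the combination of the rows at the neighbours of `y` -/
theorem norm_comb {G : SimpleGraph V} {k : ℕ} (hk : 2 ≤ k)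
    (hG : (SimpleGraph.cycleGraph (2 * k)).Free G) {K : ℝ} {B : Matrix V V ℝ}
    (hB : IsWeighting G K B) (y : V) :
    ∑ z, (∑ x, B x y / rowSq B x * B x z) ^ 2 ≤
      colW B y ^ 2 + 8 * k * K ^ 4 * (colW B y + colW B y ^ 2) := by
  set N : Finset V := univ.filter (fun x => G.Adj y x) with hN
  set T : Finset V := univ.erase y with hT
  set w : V → ℝ := fun x => 1 / rowSq B x with hw
  have hw0 : ∀ x, 0 ≤ w x := fun x => div_nonneg zero_le_one (rowSq_nonneg B x)
  have hpos : ∀ x ∈ N, 1 ≤ rowSq B x := by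
    intro x hx
    have h1 : G.Adj x y := ((Finset.mem_filter.1 hx).2).symm
    refine (one_le_sq hB h1).trans ?_
    exact Finset.single_le_sum (f := fun z => B x z ^ 2) (fun _ _ => sq_nonneg _) (Finset.mem_univ y)
  have hS : ∑ x ∈ N, w x ≤ colW B y := by
    unfold colW
    refine le_trans (Finset.sum_le_sum fun x hx => ?_) (Finset.sum_le_sum_of_subset_of_nonneg
      (Finset.subset_univ N) fun x _ _ => div_nonneg (sq_nonneg (B x y)) (rowSq_nonneg B x))
    have h1 : G.Adj x y := ((Finset.mem_filter.1 hx).2).symm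
    exact div_le_div_of_nonneg_right (one_le_sq hB h1) (rowSq_nonneg B x)
  have hSn : 0 ≤ ∑ x ∈ N, w x := Finset.sum_nonneg fun x _ => hw0 x
  have h1 : ∑ z, (∑ x, B x y / rowSq B x * B x z) ^ 2 =
      (∑ x, B x y / rowSq B x * B x y) ^ 2 + ∑ z ∈ T, (∑ x, B x y / rowSq B x * B x z) ^ 2 :=
    (Finset.add_sum_erase _ _ (Finset.mem_univ y)).symm
  have h2 : ∑ x, B x y / rowSq B x * B x y = colW B y := by
    unfold colW
    refine Finset.sum_congr rfl fun x _ => ?_
    ring
  rw [h1, h2]
  have h3 : ∀ z ∈ T, (∑ x, B x y / rowSq B x * B x z) ^ 2 ≤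
      K ^ 4 * (∑ x ∈ N.filter (fun x => G.Adj x z), w x) ^ 2 := by
    intro z _
    have e1 : ∑ x, B x y / rowSq B x * B x z =
        ∑ x ∈ N.filter (fun x => G.Adj x z), B x y / rowSq B x * B x z := by
      symm
      refine Finset.sum_subset (Finset.subset_univ _) ?_
      intro x _ hx
      by_cases h4 : G.Adj x y
      · by_cases h5 : G.Adj x z
        · exfalso
          exact hx (Finset.mem_filter.2 ⟨Finset.mem_filter.2 ⟨Finset.mem_univ _, h4.symm⟩, h5⟩)
        · rw [hB.1 x z h5, mul_zero]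
      · rw [hB.1 x y h4, zero_div, zero_mul]
    have e2 : |∑ x ∈ N.filter (fun x => G.Adj x z), B x y / rowSq B x * B x z| ≤
        K ^ 2 * ∑ x ∈ N.filter (fun x => G.Adj x z), w x := by
      refine (Finset.abs_sum_le_sum_abs _ _).trans ?_
      rw [Finset.mul_sum]
      refine Finset.sum_le_sum fun x hx => ?_
      rw [Finset.mem_filter] at hx
      have h4 : G.Adj x y := ((Finset.mem_filter.1 hx.1).2).symm
      have h5 := hB.2 x y h4
      have h6 := hB.2 x z hx.2
      have h7 : |B x y / rowSq B x * B x z| = |B x y| * |B x z| * w x := by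
        rw [abs_mul, abs_div, abs_of_nonneg (rowSq_nonneg B x), hw]
        ring
      rw [h7]
      refine mul_le_mul_of_nonneg_right ?_ (hw0 x)
      nlinarith
    rw [e1, ← sq_abs]
    calc _ ≤ (K ^ 2 * ∑ x ∈ N.filter (fun x => G.Adj x z), w x) ^ 2 :=
          pow_le_pow_left₀ (abs_nonneg _) e2 2
      _ = _ := by ring
  have h4 : ∑ z ∈ T, (∑ x ∈ N.filter (fun x => G.Adj x z), w x) ^ 2 ≤
      8 * k * (colW B y + colW B y ^ 2) := by
    have hd := dgn_of_free G hk hG y N T (fun x hx => (Finset.mem_filter.1 hx).2)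
    have h5 := sum_sq (fun x t => G.Adj x t) (4 * k) N T hd w (fun x _ => hw0 x)
    refine h5.trans ?_
    have h6 : ∑ x ∈ N, w x ^ 2 * ((T.filter (fun t => G.Adj x t)).card : ℝ) ≤ ∑ x ∈ N, w x := by
      refine Finset.sum_le_sum fun x hx => ?_
      have h7 := deg_le_rowSq hB x T
      have h8 := hpos x hx
      have h9 : w x * rowSq B x = 1 := by
        rw [hw]
        field_simp
      calc w x ^ 2 * ((T.filter (fun t => G.Adj x t)).card : ℝ) ≤ w x ^ 2 * rowSq B x :=
            mul_le_mul_of_nonneg_left h7 (sq_nonneg _)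
        _ = w x * (w x * rowSq B x) := by ring
        _ = w x := by rw [h9, mul_one]
    have h10 : (∑ x ∈ N, w x) ^ 2 ≤ colW B y ^ 2 := pow_le_pow_left₀ hSn hS 2
    have h11 : (0 : ℝ) ≤ k := Nat.cast_nonneg k
    push_cast
    have h12 := h6.trans hS
    nlinarith [mul_le_mul_of_nonneg_left (add_le_add h12 h10) h11]
  have h5 : ∑ z ∈ T, (∑ x, B x y / rowSq B x * B x z) ^ 2 ≤
      8 * k * K ^ 4 * (colW B y + colW B y ^ 2) := by
    refine (Finset.sum_le_sum h3).trans ?_
    rw [← Finset.mul_sum]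
    have h6 : (0 : ℝ) ≤ K ^ 4 := by positivity
    nlinarith [mul_le_mul_of_nonneg_left h4 h6]
  linarith

/-- the main inequality -/
theorem main_ineq {G : SimpleGraph V} {k : ℕ} (hk : 2 ≤ k)
    (hG : (SimpleGraph.cycleGraph (2 * k)).Free G) {K : ℝ} {B : Matrix V V ℝ}
    (hB : IsWeighting G K B) (L : Matrix V V ℝ) :
    ∑ y, min 1 (colW B y) ≤ 4 * (1 + 16 * k * K ^ 4) * L.rank + 4 * relErr B L := by
  obtain ⟨P, ℓ, hℓ0, hℓ, hP, hPL⟩ := leverage L
  set M : ℝ := 1 + 16 * k * K ^ 4 with hM
  set q : V → V → ℝ := fun x y => B x y - P (B x) y with hq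
  set R : V → ℝ := fun y => ∑ x, q x y ^ 2 / rowSq B x with hR
  have hR0 : ∀ y, 0 ≤ R y := fun y =>
    Finset.sum_nonneg fun x _ => div_nonneg (sq_nonneg _) (rowSq_nonneg B x)
  have hKk : (0 : ℝ) ≤ k * K ^ 4 := mul_nonneg (Nat.cast_nonneg k) (by positivity)
  have hM0 : 0 ≤ M := by rw [hM]; nlinarith
  have key : ∀ y, min 1 (colW B y) ≤ 4 * M * ℓ y + 4 * R y := by
    intro y
    set S : ℝ := colW B y with hS
    have hS0 : 0 ≤ S := colW_nonneg B y
    set v : V → ℝ := fun z => ∑ x, B x y / rowSq B x * B x z with hv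
    have hvn : ∑ z, v z ^ 2 ≤ S ^ 2 + 8 * k * K ^ 4 * (S + S ^ 2) := norm_comb hk hG hB y
    have hvs : v = ∑ x, (B x y / rowSq B x) • B x := by
      funext z
      rw [Finset.sum_apply]
      rfl
    have hPv : P v y = ∑ x, B x y / rowSq B x * P (B x) y := by
      rw [hvs, map_sum, Finset.sum_apply]
      refine Finset.sum_congr rfl fun x _ => ?_
      rw [map_smul]
      rfl
    have hvy : v y = S := by
      rw [hv, hS]
      unfold colW
      refine Finset.sum_congr rfl fun x _ => ?_
      ring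
    have hdiff : S - P v y = ∑ x, B x y / rowSq B x * q x y := by
      rw [← hvy, hPv, hv, ← Finset.sum_sub_distrib]
      refine Finset.sum_congr rfl fun x _ => ?_
      rw [hq]
      ring
    have hcs : (S - P v y) ^ 2 ≤ S * R y := by
      rw [hdiff]
      refine Finset.sum_sq_le_sum_mul_sum_of_sq_le_mul _
        (fun x _ => div_nonneg (sq_nonneg _) (rowSq_nonneg B x))
        (fun x _ => div_nonneg (sq_nonneg _) (rowSq_nonneg B x)) ?_
      intro x _
      exact le_of_eq (by ring)
    have hpl := hP v y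
    have hp2 : P v y ^ 2 ≤ ℓ y * (S ^ 2 + 8 * k * K ^ 4 * (S + S ^ 2)) :=
      hpl.trans (mul_le_mul_of_nonneg_left hvn (hℓ0 y))
    by_cases hcase : 4 * R y ≤ S
    · have h1 : (S - P v y) ^ 2 ≤ (S / 2) ^ 2 := by nlinarith
      have h2 : S - P v y ≤ S / 2 := by
        have h3 := abs_le_of_sq_le_sq h1 (by linarith)
        exact (abs_le.1 h3).2
      have h4 : S / 2 ≤ P v y := by linarith
      have h5 : (S / 2) ^ 2 ≤ P v y ^ 2 := pow_le_pow_left₀ (by linarith) h4 2
      have h6 : S ^ 2 ≤ 4 * (ℓ y * (S ^ 2 + 8 * k * K ^ 4 * (S + S ^ 2))) := by nlinarith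
      have hr := hR0 y
      rcases eq_or_lt_of_le hS0 with hz | hz
      · rw [← hz]
        have h7 : 0 ≤ 4 * M * ℓ y := mul_nonneg (by linarith) (hℓ0 y)
        simp only [min_eq_right zero_le_one]
        linarith
      · rcases le_total 1 S with h8 | h8
        · rw [min_eq_left h8]
          have h9 : S ^ 2 * 1 ≤ S ^ 2 * (4 * M * ℓ y) := by
            have h10 : S + S ^ 2 ≤ 2 * S ^ 2 := by nlinarith
            have h11 : ℓ y * (S ^ 2 + 8 * k * K ^ 4 * (S + S ^ 2)) ≤
                ℓ y * (S ^ 2 + 8 * k * K ^ 4 * (2 * S ^ 2)) := by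
              refine mul_le_mul_of_nonneg_left ?_ (hℓ0 y)
              have := mul_le_mul_of_nonneg_left h10 hKk
              nlinarith
            rw [hM]
            nlinarith
          have h12 := le_of_mul_le_mul_left h9 (by positivity)
          linarith
        · rw [min_eq_right h8]
          have h9 : S * S ≤ S * (4 * M * ℓ y) := by
            have h10 : S ^ 2 ≤ S := by nlinarith
            have h11 : ℓ y * (S ^ 2 + 8 * k * K ^ 4 * (S + S ^ 2)) ≤
                ℓ y * (S + 8 * k * K ^ 4 * (S + S)) := by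
              refine mul_le_mul_of_nonneg_left ?_ (hℓ0 y)
              have := mul_le_mul_of_nonneg_left h10 hKk
              nlinarith
            rw [hM]
            nlinarith
          have h12 := le_of_mul_le_mul_left h9 hz
          linarith
    · push Not at hcase
      have h7 : 0 ≤ 4 * M * ℓ y := mul_nonneg (by linarith) (hℓ0 y)
      exact (min_le_right _ _).trans (by linarith)
  have hRsum : ∑ y, R y ≤ relErr B L := by
    rw [hR]
    simp only
    rw [Finset.sum_comm]
    unfold relErr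
    refine Finset.sum_le_sum fun x _ => ?_
    rw [← Finset.sum_div]
    exact div_le_div_of_nonneg_right (hPL (B x) x) (rowSq_nonneg B x)
  calc ∑ y, min 1 (colW B y) ≤ ∑ y, (4 * M * ℓ y + 4 * R y) := Finset.sum_le_sum fun y _ => key y
    _ = 4 * M * ∑ y, ℓ y + 4 * ∑ y, R y := by
        rw [Finset.sum_add_distrib, ← Finset.mul_sum, ← Finset.mul_sum]
    _ ≤ 4 * M * L.rank + 4 * relErr B L := by
        refine add_le_add (mul_le_mul_of_nonneg_left hℓ (by linarith)) ?_
        linarith

end Pool.Agent.W5h94.RK
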