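import Mathlib
import Pool.Agent.W5h94.RK.Ineq

/-!
# Few vertices meet a positive proportion of the edges
-/

set_option autoImplicit false

open Finset Classical

namespace Pool.Agent.W5h94.RK

variable {V : Type} [Fintype V]

/-- the number of ordered pairs of adjacent vertices with an element in `Z` -/
noncomputable def dartsAt (G : SimpleGraph V) (Z : Finset V) : ℕ :=
  ∑ x, (univ.filter (fun y => G.Adj x y ∧ (x ∈ Z ∨ y ∈ Z))).card

/-- the number of ordered pairs of adjacent vertices -/
noncomputable def darts (G : SimpleGraph V) : ℕ := ∑ x, (univ.filter (fun y => G.Adj x y)).card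

theorem cover {G : SimpleGraph V} {k : ℕ} (hk : 2 ≤ k)
    (hG : (SimpleGraph.cycleGraph (2 * k)).Free G) {K : ℝ} {B : Matrix V V ℝ}
    (hB : IsWeighting G K B) (L : Matrix V V ℝ) :
    ∃ Z : Finset V, (Z.card : ℝ) ≤ 2 * (4 * (1 + 16 * k * K ^ 4) * L.rank + 4 * relErr B L) ∧
      (darts G : ℝ) ≤ (1 + K ^ 2) * dartsAt G Z := by
  have hmain := main_ineq hk hG hB L
  set ρ : ℝ := 4 * (1 + 16 * k * K ^ 4) * L.rank + 4 * relErr B L with hρ
  set Y : Finset V := univ.filter (fun y => 1 ≤ colW B y) with hY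
  set X : Finset V := univ.filter (fun x => 1 / 2 ≤ ∑ y ∈ Yᶜ, B x y ^ 2 / rowSq B x) with hX
  refine ⟨X ∪ Y, ?_, ?_⟩
  · have h1 : ∑ y, min 1 (colW B y) = Y.card + ∑ y ∈ Yᶜ, colW B y := by
      rw [← Finset.sum_add_sum_compl Y]
      congr 1
      · rw [Finset.sum_congr rfl (g := fun _ => (1 : ℝ))]
        · simp
        · intro y hy
          exact min_eq_left (Finset.mem_filter.1 hy).2
      · refine Finset.sum_congr rfl fun y hy => ?_
        rw [Finset.mem_compl, hY, Finset.mem_filter, not_and] at hy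
        exact min_eq_right (not_le.1 (hy (Finset.mem_univ _))).le
    have h2 : (X.card : ℝ) * (1 / 2) ≤ ∑ y ∈ Yᶜ, colW B y := by
      have h3 : ∑ y ∈ Yᶜ, colW B y = ∑ x, ∑ y ∈ Yᶜ, B x y ^ 2 / rowSq B x := by
        unfold colW
        exact Finset.sum_comm
      rw [h3]
      calc (X.card : ℝ) * (1 / 2) = ∑ x ∈ X, (1 / 2 : ℝ) := by simp
        _ ≤ ∑ x ∈ X, ∑ y ∈ Yᶜ, B x y ^ 2 / rowSq B x :=
            Finset.sum_le_sum fun x hx => (Finset.mem_filter.1 hx).2
        _ ≤ _ := Finset.sum_le_sum_of_subset_of_nonneg (Finset.subset_univ _) fun x _ _ =>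
            Finset.sum_nonneg fun y _ => div_nonneg (sq_nonneg _) (rowSq_nonneg B x)
    have h4 : ((X ∪ Y).card : ℝ) ≤ X.card + Y.card := by exact_mod_cast Finset.card_union_le X Y
    linarith
  · unfold darts dartsAt
    push_cast
    rw [Finset.mul_sum]
    refine Finset.sum_le_sum fun x _ => ?_
    by_cases hx : x ∈ X
    · have h1 : (univ.filter (fun y => G.Adj x y ∧ (x ∈ X ∪ Y ∨ y ∈ X ∪ Y))) =
          univ.filter (fun y => G.Adj x y) := by
        refine Finset.filter_congr fun y _ => ?_
        simp [hx]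
      rw [h1]
      have h2 : (0 : ℝ) ≤ ((univ.filter (fun y => G.Adj x y)).card : ℝ) := Nat.cast_nonneg _
      nlinarith [sq_nonneg K, mul_nonneg (sq_nonneg K) h2]
    · set b : ℝ := ((univ.filter (fun y => G.Adj x y ∧ y ∈ Y)).card : ℝ) with hb
      set a : ℝ := ((univ.filter (fun y => G.Adj x y ∧ y ∉ Y)).card : ℝ) with ha
      have h1 : ((univ.filter (fun y => G.Adj x y)).card : ℝ) = b + a := by
        rw [hb, ha, ← Nat.cast_add, ← Finset.card_filter_add_card_filter_not (fun y => y ∈ Y),
          Finset.filter_filter, Finset.filter_filter]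
      have h2 : b ≤ ((univ.filter (fun y => G.Adj x y ∧ (x ∈ X ∪ Y ∨ y ∈ X ∪ Y))).card : ℝ) := by
        rw [hb]
        have : (univ.filter (fun y => G.Adj x y ∧ y ∈ Y)).card ≤
            (univ.filter (fun y => G.Adj x y ∧ (x ∈ X ∪ Y ∨ y ∈ X ∪ Y))).card := by
          refine Finset.card_le_card fun y hy => ?_
          rw [Finset.mem_filter] at hy ⊢
          exact ⟨hy.1, hy.2.1, Or.inr (Finset.mem_union_right _ hy.2.2)⟩
        exact_mod_cast this
      have h3 : a ≤ K ^ 2 * b := by
        -- the weights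
        have h4 : ∑ y ∈ Yᶜ, B x y ^ 2 / rowSq B x < 1 / 2 := by
          rw [hX, Finset.mem_filter, not_and] at hx
          exact not_le.1 (hx (Finset.mem_univ _))
        have h5 : a ≤ ∑ y ∈ Yᶜ, B x y ^ 2 := by
          have h6 : a = ∑ y ∈ univ.filter (fun y => G.Adj x y ∧ y ∉ Y), (1 : ℝ) := by
            rw [ha]; simp
          rw [h6]
          refine (Finset.sum_le_sum fun y hy => one_le_sq hB (Finset.mem_filter.1 hy).2.1).trans ?_
          refine Finset.sum_le_sum_of_subset_of_nonneg ?_ fun _ _ _ => sq_nonneg _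
          intro y hy
          rw [Finset.mem_compl]
          exact (Finset.mem_filter.1 hy).2.2
        have h7 : ∑ y ∈ Y, B x y ^ 2 ≤ K ^ 2 * b := by
          have h8 : ∑ y ∈ Y, B x y ^ 2 =
              ∑ y ∈ univ.filter (fun y => G.Adj x y ∧ y ∈ Y), B x y ^ 2 := by
            symm
            refine Finset.sum_subset ?_ ?_
            · intro y hy
              exact (Finset.mem_filter.1 hy).2.2
            · intro y hy hy2
              have h9 : ¬ G.Adj x y := fun h => hy2 (Finset.mem_filter.2 ⟨Finset.mem_univ _, h, hy⟩)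
              rw [hB.1 x y h9]
              ring
          rw [h8]
          calc _ ≤ ∑ y ∈ univ.filter (fun y => G.Adj x y ∧ y ∈ Y), K ^ 2 := by
                refine Finset.sum_le_sum fun y hy => ?_
                have h9 := hB.2 x y (Finset.mem_filter.1 hy).2.1
                rw [← sq_abs]
                exact pow_le_pow_left₀ (abs_nonneg _) h9.2 2
            _ = K ^ 2 * b := by
                rw [Finset.sum_const, nsmul_eq_mul, hb, mul_comm]
        have h9 : ∑ y ∈ Y, B x y ^ 2 + ∑ y ∈ Yᶜ, B x y ^ 2 = rowSq B x :=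
          Finset.sum_add_sum_compl Y _
        rcases eq_or_lt_of_le (rowSq_nonneg B x) with h10 | h10
        · have h11 : 0 ≤ ∑ y ∈ Y, B x y ^ 2 := Finset.sum_nonneg fun _ _ => sq_nonneg _
          linarith
        · rw [← Finset.sum_div, div_lt_iff₀ h10] at h4
          linarith
      have h4 : (0 : ℝ) ≤ 1 + K ^ 2 := by positivity
      rw [h1]
      calc b + a ≤ (1 + K ^ 2) * b := by linarith
        _ ≤ _ := mul_le_mul_of_nonneg_left h2 h4

end Pool.Agent.W5h94.RK
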