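import Mathlib
import Pool.Agent.W5h94.RK.Cover
import Pool.Agent.W5h94.RK.BS

/-!
# The number of edges
-/

set_option autoImplicit false

open Finset Classical

namespace Pool.Agent.W5h94.RK

variable {V : Type} [Fintype V]

omit [Fintype V] in
lemma free_induce {G : SimpleGraph V} {n : ℕ} (hG : (SimpleGraph.cycleGraph n).Free G)
    (W : Set V) : (SimpleGraph.cycleGraph n).Free (G.induce W) := by
  intro h
  exact hG (h.trans ⟨(SimpleGraph.Embedding.induce W).toCopy⟩)

omit [Fintype V] in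
/-- adjacent pairs inside of `W` -/
lemma pairs_induce (G : SimpleGraph V) (W : Finset V) :
    ∑ x ∈ W, (W.filter (fun y => G.Adj x y)).card =
      2 * (G.induce (W : Set V)).edgeSet.ncard := by
  have h1 := SimpleGraph.sum_degrees_eq_twice_card_edges (G.induce (W : Set V))
  have h2 : (G.induce (W : Set V)).edgeFinset.card = (G.induce (W : Set V)).edgeSet.ncard := by
    rw [← SimpleGraph.coe_edgeFinset, Set.ncard_coe_finset]
  rw [h2] at h1
  rw [← h1]
  have h3 : ∑ x ∈ W, (W.filter (fun y => G.Adj x y)).card =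
      ∑ x : (W : Set V), (W.filter (fun y => G.Adj x y)).card := by
    rw [← Finset.sum_coe_sort]
    rfl
  rw [h3]
  refine Finset.sum_congr rfl fun x _ => ?_
  rw [← SimpleGraph.card_neighborFinset_eq_degree]
  symm
  refine Finset.card_bij (fun y _ => (y : V)) ?_ ?_ ?_
  · intro y hy
    rw [SimpleGraph.mem_neighborFinset, SimpleGraph.comap_adj] at hy
    rw [Finset.mem_filter]
    exact ⟨y.2, hy⟩
  · intro y _ z _ h
    exact Subtype.ext h
  · intro y hy
    rw [Finset.mem_filter] at hy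
    refine ⟨⟨y, hy.1⟩, ?_, rfl⟩
    rw [SimpleGraph.mem_neighborFinset, SimpleGraph.comap_adj]
    exact hy.2

lemma darts_eq (G : SimpleGraph V) : darts G = 2 * G.edgeSet.ncard := by
  have h1 := SimpleGraph.sum_degrees_eq_twice_card_edges G
  have h2 : G.edgeFinset.card = G.edgeSet.ncard := by
    rw [← SimpleGraph.coe_edgeFinset, Set.ncard_coe_finset]
  rw [h2] at h1
  rw [← h1]
  unfold darts
  refine Finset.sum_congr rfl fun x _ => ?_
  rw [← SimpleGraph.card_neighborFinset_eq_degree, SimpleGraph.neighborFinset_eq_filter]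

lemma dartsAt_le (G : SimpleGraph V) (Z : Finset V) :
    dartsAt G Z ≤ 2 * ∑ z ∈ Z, (univ.filter (fun y => G.Adj z y)).card := by
  unfold dartsAt
  have h1 : ∀ x, (univ.filter (fun y => G.Adj x y ∧ (x ∈ Z ∨ y ∈ Z))).card ≤
      (if x ∈ Z then (univ.filter (fun y => G.Adj x y)).card else 0) +
      (Z.filter (fun y => G.Adj x y)).card := by
    intro x
    by_cases hx : x ∈ Z
    · rw [if_pos hx]
      refine le_trans (Finset.card_le_card ?_) (Nat.le_add_right _ _)
      intro y hy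
      rw [Finset.mem_filter] at hy ⊢
      exact ⟨hy.1, hy.2.1⟩
    · rw [if_neg hx, Nat.zero_add]
      refine Finset.card_le_card ?_
      intro y hy
      rw [Finset.mem_filter] at hy ⊢
      exact ⟨hy.2.2.resolve_left hx, hy.2.1⟩
  refine (Finset.sum_le_sum fun x _ => h1 x).trans ?_
  rw [Finset.sum_add_distrib, ← Finset.sum_filter, Finset.filter_mem_eq_inter, Finset.univ_inter]
  have h2 : ∑ x, (Z.filter (fun y => G.Adj x y)).card =
      ∑ z ∈ Z, (univ.filter (fun y => G.Adj z y)).card := by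
    simp only [Finset.card_filter]
    rw [Finset.sum_comm]
    simp only [G.adj_comm]
  rw [h2]
  omega

/-- the degrees of the vertices of `Z` -/
lemma deg_sum_le (G : SimpleGraph V) {k : ℕ} (hk : 2 ≤ k)
    (hG : (SimpleGraph.cycleGraph (2 * k)).Free G) (C : ℕ)
    (hC : ∀ (V : Type) [Finite V] (X : SimpleGraph V), (SimpleGraph.cycleGraph (2 * k)).Free X →
      X.edgeSet.ncard ^ k ≤ C * Nat.card V ^ (k + 1)) (Z : Finset V) :
    (∑ z ∈ Z, (univ.filter (fun y => G.Adj z y)).card) ^ k ≤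
      C * 2 ^ (3 * k + 1) * (Z.card * Fintype.card V ^ k) := by
  obtain ⟨m, hm⟩ : ∃ m, m = Z.card := ⟨_, rfl⟩
  rcases Nat.eq_zero_or_pos m with h0 | hpos
  · have hZ : Z = ∅ := Finset.card_eq_zero.1 (by omega)
    rw [hZ, Finset.sum_empty, zero_pow (by omega)]
    exact Nat.zero_le _
  obtain ⟨n, hn⟩ : ∃ n, n = Fintype.card V := ⟨_, rfl⟩
  have hmn : m ≤ n := by rw [hm, hn]; exact Finset.card_le_univ Z
  let e : V ≃ Fin n := Fintype.equivFinOfCardEq hn.symm
  set U : ℕ → Finset V := fun j => univ.filter (fun v => (e v : ℕ) / m = j) with hU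
  have hUc : ∀ j, (U j).card ≤ m := by
    intro j
    have h1 : (U j).card ≤ (Finset.Ico (j * m) (j * m + m)).card := by
      refine Finset.card_le_card_of_injOn (fun v => (e v : ℕ)) ?_ ?_
      · intro v hv
        have hv' : (e v : ℕ) / m = j := (Finset.mem_filter.1 hv).2
        rw [Finset.mem_coe, Finset.mem_Ico]
        have h2 := Nat.div_add_mod (e v : ℕ) m
        have h3 := Nat.mod_lt (e v : ℕ) hpos
        rw [hv', mul_comm] at h2
        simp only
        constructor <;> omega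
      · intro v _ w _ h
        exact e.injective (Fin.ext h)
    rw [Nat.card_Ico] at h1
    omega
  set s : ℕ → ℕ := fun j => ∑ z ∈ Z, ((U j).filter (fun y => G.Adj z y)).card with hs
  have hsum : ∑ z ∈ Z, (univ.filter (fun y => G.Adj z y)).card =
      ∑ j ∈ Finset.range (n / m + 1), s j := by
    rw [hs]
    simp only
    rw [Finset.sum_comm]
    refine Finset.sum_congr rfl fun z _ => ?_
    rw [Finset.card_eq_sum_card_fiberwise (f := fun v => (e v : ℕ) / m)
      (t := Finset.range (n / m + 1))]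
    · refine Finset.sum_congr rfl fun j _ => ?_
      congr 1
      ext y
      simp only [hU, Finset.mem_filter, Finset.mem_univ, true_and]
      exact and_comm
    · intro v _
      rw [Finset.mem_coe, Finset.mem_range]
      have h1 : (e v : ℕ) / m ≤ n / m := Nat.div_le_div_right (e v).2.le
      simp only
      omega
  have hsj : ∀ j, s j ^ k ≤ C * 2 ^ k * (2 * m) ^ (k + 1) := by
    intro j
    set W : Finset V := Z ∪ U j with hW
    have h1 : s j ≤ 2 * (G.induce (W : Set V)).edgeSet.ncard := by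
      rw [← pairs_induce]
      refine le_trans (Finset.sum_le_sum fun z _ => Finset.card_le_card
        (Finset.filter_subset_filter _ (Finset.subset_union_right (s₁ := Z)))) ?_
      exact Finset.sum_le_sum_of_subset (Finset.subset_union_left)
    have h2 := hC (W : Set V) (G.induce (W : Set V)) (free_induce hG _)
    have h3 : Nat.card (W : Set V) ≤ 2 * m := by
      have h4 : Nat.card (W : Set V) = W.card := by simp
      rw [h4, hW]
      refine (Finset.card_union_le _ _).trans ?_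
      have := hUc j
      omega
    calc s j ^ k ≤ (2 * (G.induce (W : Set V)).edgeSet.ncard) ^ k := Nat.pow_le_pow_left h1 k
      _ = 2 ^ k * (G.induce (W : Set V)).edgeSet.ncard ^ k := by rw [mul_pow]
      _ ≤ 2 ^ k * (C * (2 * m) ^ (k + 1)) := Nat.mul_le_mul_left _
          (h2.trans (Nat.mul_le_mul_left _ (Nat.pow_le_pow_left h3 _)))
      _ = _ := by ring
  obtain ⟨j0, hj0, hmax⟩ := Finset.exists_max_image (Finset.range (n / m + 1)) s ⟨0, by simp⟩
  have h1 : ∑ z ∈ Z, (univ.filter (fun y => G.Adj z y)).card ≤ (n / m + 1) * s j0 := by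
    rw [hsum]
    calc _ ≤ ∑ j ∈ Finset.range (n / m + 1), s j0 := Finset.sum_le_sum fun j hj => hmax j hj
      _ = _ := by rw [Finset.sum_const, Finset.card_range, smul_eq_mul]
  have h2 : (n / m + 1) * m ≤ 2 * n := by
    have := Nat.div_mul_le_self n m
    nlinarith
  rw [← hm, ← hn]
  calc _ ≤ ((n / m + 1) * s j0) ^ k := Nat.pow_le_pow_left h1 k
    _ = (n / m + 1) ^ k * s j0 ^ k := mul_pow _ _ _
    _ ≤ (n / m + 1) ^ k * (C * 2 ^ k * (2 * m) ^ (k + 1)) := Nat.mul_le_mul_left _ (hsj j0)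
    _ = C * 2 ^ (2 * k + 1) * m * ((n / m + 1) * m) ^ k := by rw [mul_pow, mul_pow]; ring
    _ ≤ C * 2 ^ (2 * k + 1) * m * (2 * n) ^ k :=
        Nat.mul_le_mul_left _ (Nat.pow_le_pow_left h2 k)
    _ = _ := by rw [mul_pow]; ring

/-- the number of edges in terms of the rank -/
theorem edges_le (k : ℕ) (hk : 2 ≤ k) (K : ℝ) : ∃ C : ℝ, 0 < C ∧
    ∀ (V : Type) [Fintype V] (G : SimpleGraph V), (SimpleGraph.cycleGraph (2 * k)).Free G →
    ∀ B L : Matrix V V ℝ, IsWeighting G K B →
      (G.edgeSet.ncard : ℝ) ^ k ≤ C * (L.rank + relErr B L) * (Fintype.card V : ℝ) ^ k := by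
  obtain ⟨C, hC⟩ := bondy_simonovits k hk
  obtain ⟨M, hM⟩ : ∃ M : ℝ, M = 8 * (1 + 16 * k * K ^ 4) := ⟨_, rfl⟩
  have hM8 : 8 ≤ M := by
    rw [hM]
    have : (0 : ℝ) ≤ k * K ^ 4 := mul_nonneg (Nat.cast_nonneg k) (by positivity)
    linarith
  refine ⟨(1 + K ^ 2) ^ k * (C * 2 ^ (3 * k + 1) * M) + 1, by positivity, ?_⟩
  intro V _ G hG B L hB
  obtain ⟨Z, hZ1, hZ2⟩ := cover hk hG hB L
  have hr : 0 ≤ relErr B L := Finset.sum_nonneg fun x _ =>
    div_nonneg (Finset.sum_nonneg fun _ _ => sq_nonneg _) (rowSq_nonneg B x)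
  have hrk : (0 : ℝ) ≤ L.rank := Nat.cast_nonneg _
  have hZ3 : (Z.card : ℝ) ≤ M * (L.rank + relErr B L) := by
    refine hZ1.trans ?_
    rw [hM]
    have h1 : (0 : ℝ) ≤ k * K ^ 4 * relErr B L :=
      mul_nonneg (mul_nonneg (Nat.cast_nonneg k) (by positivity)) hr
    nlinarith
  have h1 := deg_sum_le G hk hG C hC Z
  set Sz : ℕ := ∑ z ∈ Z, (univ.filter (fun y => G.Adj z y)).card with hSz
  have h2 : (dartsAt G Z : ℝ) ≤ 2 * Sz := by exact_mod_cast dartsAt_le G Z
  have h3 : (darts G : ℝ) = 2 * (G.edgeSet.ncard : ℝ) := by exact_mod_cast darts_eq G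
  have h4 : (G.edgeSet.ncard : ℝ) ≤ (1 + K ^ 2) * Sz := by
    have h5 : (0 : ℝ) ≤ 1 + K ^ 2 := by positivity
    have h6 := mul_le_mul_of_nonneg_left h2 h5
    linarith
  have h5 : (Sz : ℝ) ^ k ≤ C * 2 ^ (3 * k + 1) * (Z.card * (Fintype.card V : ℝ) ^ k) := by
    exact_mod_cast h1
  have hn : (0 : ℝ) ≤ (Fintype.card V : ℝ) ^ k := by positivity
  calc (G.edgeSet.ncard : ℝ) ^ k ≤ ((1 + K ^ 2) * Sz) ^ k :=
        pow_le_pow_left₀ (Nat.cast_nonneg _) h4 k
    _ = (1 + K ^ 2) ^ k * (Sz : ℝ) ^ k := mul_pow _ _ _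
    _ ≤ (1 + K ^ 2) ^ k * (C * 2 ^ (3 * k + 1) * (Z.card * (Fintype.card V : ℝ) ^ k)) :=
        mul_le_mul_of_nonneg_left h5 (by positivity)
    _ ≤ (1 + K ^ 2) ^ k * (C * 2 ^ (3 * k + 1) *
        (M * (L.rank + relErr B L) * (Fintype.card V : ℝ) ^ k)) := by
        gcongr
    _ = (1 + K ^ 2) ^ k * (C * 2 ^ (3 * k + 1) * M) * (L.rank + relErr B L) *
        (Fintype.card V : ℝ) ^ k := by ring
    _ ≤ _ := by
        refine mul_le_mul_of_nonneg_right ?_ hn
        refine mul_le_mul_of_nonneg_right ?_ (by linarith)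
        linarith

end Pool.Agent.W5h94.RK
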