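import Mathlib
import Pool.Agent.W5h94.RK.Bound

/-!
# The vertex cover number and the rank
-/

set_option autoImplicit false

open Finset Classical

namespace Pool.Agent.W5h94.RK

variable {V : Type} [Fintype V]

lemma relErr_self (B : Matrix V V ℝ) : relErr B B = 0 := by
  unfold relErr
  simp

/-- the edges that do not meet `Z` -/
def offZ (G : SimpleGraph V) (Z : Finset V) : SimpleGraph V where
  Adj x y := G.Adj x y ∧ x ∉ Z ∧ y ∉ Z
  symm := ⟨fun _ _ h => ⟨h.1.symm, h.2.2, h.2.1⟩⟩
  loopless := ⟨fun _ h => G.irrefl h.1⟩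

/-- the entries outside of the rows and columns in `Z` -/
noncomputable def offM (B : Matrix V V ℝ) (Z : Finset V) : Matrix V V ℝ :=
  Matrix.diagonal (fun x => if x ∈ Z then (0 : ℝ) else 1) * B *
    Matrix.diagonal (fun x => if x ∈ Z then (0 : ℝ) else 1)

lemma offM_apply (B : Matrix V V ℝ) (Z : Finset V) (x y : V) :
    offM B Z x y = if x ∈ Z ∨ y ∈ Z then 0 else B x y := by
  unfold offM
  rw [Matrix.mul_diagonal, Matrix.diagonal_mul]
  by_cases hx : x ∈ Z <;> by_cases hy : y ∈ Z <;> simp [hx, hy]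

lemma rank_offM (B : Matrix V V ℝ) (Z : Finset V) : (offM B Z).rank ≤ B.rank :=
  (Matrix.rank_mul_le_left _ _).trans (Matrix.rank_mul_le_right _ _)

lemma offM_weighting {G : SimpleGraph V} {K : ℝ} {B : Matrix V V ℝ} (hB : IsWeighting G K B)
    (Z : Finset V) : IsWeighting (offZ G Z) K (offM B Z) := by
  constructor
  · intro x y h
    rw [offM_apply]
    split_ifs with hZ
    · rfl
    · rw [not_or] at hZ
      exact hB.1 x y fun h' => h ⟨h', hZ.1, hZ.2⟩
  · intro x y h
    rw [offM_apply, if_neg (by rw [not_or]; exact h.2)]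
    exact hB.2 x y h.1

lemma darts_offZ (G : SimpleGraph V) (Z : Finset V) :
    darts (offZ G Z) + dartsAt G Z = darts G := by
  unfold darts dartsAt
  rw [← Finset.sum_add_distrib]
  refine Finset.sum_congr rfl fun x _ => ?_
  have h1 : (univ.filter (fun y => (offZ G Z).Adj x y)) =
      (univ.filter (fun y => G.Adj x y)).filter (fun y => ¬ (x ∈ Z ∨ y ∈ Z)) := by
    rw [Finset.filter_filter]
    refine Finset.filter_congr fun y _ => ?_
    rw [not_or]
    exact Iff.rfl
  have h2 : (univ.filter (fun y => G.Adj x y ∧ (x ∈ Z ∨ y ∈ Z))) =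
      (univ.filter (fun y => G.Adj x y)).filter (fun y => (x ∈ Z ∨ y ∈ Z)) := by
    rw [Finset.filter_filter]
  rw [h1, h2, add_comm]
  exact Finset.card_filter_add_card_filter_not _

theorem cover_all {k : ℕ} (hk : 2 ≤ k) (r : ℕ) : ∀ (e : ℕ) (G : SimpleGraph V),
    G.edgeSet.ncard = e → (SimpleGraph.cycleGraph (2 * k)).Free G → ∀ B : Matrix V V ℝ,
    IsWeighting G 1 B → B.rank ≤ r →
    ∃ Z : Finset V, (∀ x y, G.Adj x y → x ∈ Z ∨ y ∈ Z) ∧
      Z.card ≤ 8 * (1 + 16 * k) * r * (Nat.log 2 e + 1) := by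
  intro e
  induction e using Nat.strong_induction_on with
  | _ e ih =>
  intro G he hG B hB hr
  rcases Nat.eq_zero_or_pos e with h0 | hpos
  · refine ⟨∅, ?_, by simp⟩
    intro x y hxy
    exfalso
    rw [h0, Set.ncard_eq_zero] at he
    have : s(x, y) ∈ G.edgeSet := hxy
    rw [he] at this
    exact this
  · obtain ⟨Z, hZ1, hZ2⟩ := cover hk hG hB B
    rw [relErr_self] at hZ1
    have h1 : Z.card ≤ 8 * (1 + 16 * k) * r := by
      have h2 : (Z.card : ℝ) ≤ 8 * (1 + 16 * k) * r := by
        refine hZ1.trans ?_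
        have h3 : (B.rank : ℝ) ≤ r := by exact_mod_cast hr
        have h4 : (0 : ℝ) ≤ 8 * (1 + 16 * k) := by positivity
        have h5 := mul_le_mul_of_nonneg_left h3 h4
        norm_num
        linarith
      exact_mod_cast h2
    have h2 : darts G ≤ 2 * dartsAt G Z := by
      have h3 : (darts G : ℝ) ≤ 2 * dartsAt G Z := by
        refine hZ2.trans (le_of_eq ?_)
        norm_num
      exact_mod_cast h3
    have h3 := darts_offZ G Z
    rw [darts_eq, darts_eq] at h3
    rw [darts_eq] at h2
    obtain ⟨e', he'⟩ : ∃ e', e' = (offZ G Z).edgeSet.ncard := ⟨_, rfl⟩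
    have h4 : e' ≤ e / 2 := by omega
    have h5 : (SimpleGraph.cycleGraph (2 * k)).Free (offZ G Z) := by
      intro h
      refine hG (h.trans ?_)
      have hle : offZ G Z ≤ G := fun x y hxy => hxy.1
      exact SimpleGraph.IsContained.of_le hle
    obtain ⟨Z', hZ'1, hZ'2⟩ := ih e' (by omega) (offZ G Z) he'.symm h5 (offM B Z)
      (offM_weighting hB Z) ((rank_offM B Z).trans hr)
    rcases Nat.eq_zero_or_pos e' with h6 | h6
    · refine ⟨Z, ?_, h1.trans (Nat.le_mul_of_pos_right _ (Nat.succ_pos _))⟩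
      intro x y hxy
      by_contra hcon
      rw [not_or] at hcon
      have h7 : s(x, y) ∈ (offZ G Z).edgeSet := ⟨hxy, hcon.1, hcon.2⟩
      rw [h6, eq_comm, Set.ncard_eq_zero] at he'
      rw [he'] at h7
      exact h7
    · refine ⟨Z ∪ Z', ?_, ?_⟩
      · intro x y hxy
        by_cases hx : x ∈ Z
        · exact Or.inl (Finset.mem_union_left _ hx)
        · by_cases hy : y ∈ Z
          · exact Or.inr (Finset.mem_union_left _ hy)
          · rcases hZ'1 x y ⟨hxy, hx, hy⟩ with h | h
            · exact Or.inl (Finset.mem_union_right _ h)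
            · exact Or.inr (Finset.mem_union_right _ h)
      · have h7 : Nat.log 2 e' + 1 ≤ Nat.log 2 e := by
          have h8 : Nat.log 2 (e / 2) = Nat.log 2 e - 1 := Nat.log_div_base 2 e
          have h9 : Nat.log 2 e' ≤ Nat.log 2 (e / 2) := Nat.log_mono_right h4
          have h10 : 1 ≤ Nat.log 2 e := by
            have h11 : 2 ≤ e := by omega
            exact Nat.log_pos (by norm_num) h11
          omega
        refine (Finset.card_union_le _ _).trans ?_
        calc Z.card + Z'.card ≤ 8 * (1 + 16 * k) * r + 8 * (1 + 16 * k) * r * (Nat.log 2 e' + 1) :=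
              Nat.add_le_add h1 hZ'2
          _ = 8 * (1 + 16 * k) * r * (Nat.log 2 e' + 1 + 1) := by ring
          _ ≤ _ := Nat.mul_le_mul_left _ (by omega)

theorem mat_rank_add_le {m n F : Type*} [Fintype m] [Fintype n] [Field F] (A B : Matrix m n F) :
    (A + B).rank ≤ A.rank + B.rank := by
  unfold Matrix.rank
  have h1 : LinearMap.range (A + B).mulVecLin ≤
      LinearMap.range A.mulVecLin ⊔ LinearMap.range B.mulVecLin := by
    rintro _ ⟨v, rfl⟩
    rw [Matrix.mulVecLin_add, LinearMap.add_apply]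
    exact Submodule.add_mem_sup ⟨v, rfl⟩ ⟨v, rfl⟩
  exact (Submodule.finrank_mono h1).trans (Submodule.finrank_add_le_finrank_add_finrank _ _)

/-- the rank is at most twice the number of the vertices in a vertex cover -/
theorem rank_le_cover {G : SimpleGraph V} {K : ℝ} {B : Matrix V V ℝ} (hB : IsWeighting G K B)
    (Z : Finset V) (hZ : ∀ x y, G.Adj x y → x ∈ Z ∨ y ∈ Z) : B.rank ≤ 2 * Z.card := by
  set D : Matrix V V ℝ := Matrix.diagonal (fun x => if x ∈ Z then (1 : ℝ) else 0) with hD
  have hDr : D.rank ≤ Z.card := by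
    rw [hD, Matrix.rank_diagonal, Fintype.card_subtype]
    refine Finset.card_le_card fun x hx => ?_
    by_contra h
    rw [Finset.mem_filter, if_neg h] at hx
    exact hx.2 rfl
  have h1 : B = D * B + (B - D * B) * D := by
    ext x y
    rw [Matrix.add_apply, Matrix.mul_diagonal, Matrix.sub_apply, hD, Matrix.diagonal_mul]
    by_cases hx : x ∈ Z
    · simp [hx]
    · by_cases hy : y ∈ Z
      · simp [hx, hy]
      · have h2 : B x y = 0 := hB.1 x y fun h => by
          rcases hZ x y h with h | h
          · exact hx h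
          · exact hy h
        simp [hx, hy, h2]
  rw [h1]
  refine (mat_rank_add_le _ _).trans ?_
  have h2 := (Matrix.rank_mul_le_left D B).trans hDr
  have h3 := (Matrix.rank_mul_le_right (B - D * B) D).trans hDr
  omega

end Pool.Agent.W5h94.RK
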