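import Mathlib
import Pool.Agent.Y428.Ab.Haar
import Pool.Agent.W5h94.RK.Tau

/-!
# Graphs without `C_4` of small rank in positive characteristic
-/

set_option autoImplicit false

open Finset Classical

namespace Pool.Agent.W5h94.RK

section sep

variable {m n F : Type} [Field F]

/-- `M` is a sum of at most `T` products of a function of the row and a function of the column -/
def Sep (M : m → n → F) (T : ℕ) : Prop := ∃ (τ : Type) (_ : Fintype τ), Fintype.card τ ≤ T ∧
  ∃ (u : τ → m → F) (w : τ → n → F), ∀ i j, M i j = ∑ t, u t i * w t j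

lemma sep_one (f : m → F) (g : n → F) : Sep (fun i j => f i * g j) 1 :=
  ⟨Unit, inferInstance, by simp, fun _ => f, fun _ => g, fun i j => by simp⟩

lemma sep_congr {M N : m → n → F} {T : ℕ} (h : Sep M T) (hMN : ∀ i j, N i j = M i j) : Sep N T := by
  obtain ⟨τ, i1, h1, u, w, h2⟩ := h
  exact ⟨τ, i1, h1, u, w, fun i j => (hMN i j).trans (h2 i j)⟩

lemma sep_add {M N : m → n → F} {T T' : ℕ} (h : Sep M T) (h' : Sep N T') :
    Sep (fun i j => M i j + N i j) (T + T') := by
  obtain ⟨τ, i1, h1, u, w, h2⟩ := h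
  obtain ⟨τ', i1', h1', u', w', h2'⟩ := h'
  refine ⟨τ ⊕ τ', inferInstance, by rw [Fintype.card_sum]; omega, Sum.elim u u', Sum.elim w w', ?_⟩
  intro i j
  simp only
  rw [h2, h2', Fintype.sum_sum_type]
  simp

lemma sep_mul {M N : m → n → F} {T T' : ℕ} (h : Sep M T) (h' : Sep N T') :
    Sep (fun i j => M i j * N i j) (T * T') := by
  obtain ⟨τ, i1, h1, u, w, h2⟩ := h
  obtain ⟨τ', i1', h1', u', w', h2'⟩ := h'
  refine ⟨τ × τ', inferInstance, by rw [Fintype.card_prod]; exact Nat.mul_le_mul h1 h1',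
    fun p i => u p.1 i * u' p.2 i, fun p j => w p.1 j * w' p.2 j, ?_⟩
  intro i j
  simp only
  rw [h2, h2', Fintype.sum_mul_sum, Fintype.sum_prod_type]
  refine Finset.sum_congr rfl fun s _ => Finset.sum_congr rfl fun t _ => ?_
  ring

lemma sep_zero : Sep (fun (_ : m) (_ : n) => (0 : F)) 0 :=
  ⟨Empty, inferInstance, by simp, fun t => t.elim, fun t => t.elim, fun i j => by simp⟩

lemma sep_sum (M : ℕ → m → n → F) (T : ℕ → ℕ) (h : ∀ s, Sep (M s) (T s)) (N : ℕ) :
    Sep (fun i j => ∑ s ∈ range N, M s i j) (∑ s ∈ range N, T s) := by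
  induction N with
  | zero => simpa using (sep_zero : Sep (fun (_ : m) (_ : n) => (0 : F)) 0)
  | succ N ih =>
    rw [Finset.sum_range_succ]
    exact sep_congr (sep_add ih (h N)) fun i j => Finset.sum_range_succ _ _

lemma sep_prod (M : ℕ → m → n → F) (T : ℕ) (h : ∀ s, Sep (M s) T) (N : ℕ) :
    Sep (fun i j => ∏ s ∈ range N, M s i j) (T ^ N) := by
  induction N with
  | zero =>
    refine sep_congr (sep_one (fun _ => 1) (fun _ => 1)) fun i j => ?_
    simp
  | succ N ih =>
    rw [pow_succ]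
    exact sep_congr (sep_mul ih (h N)) fun i j => Finset.prod_range_succ _ _

lemma sep_frob {M : m → n → F} {T : ℕ} (p : ℕ) [Fact p.Prime] [CharP F p] (h : Sep M T) (a : ℕ) :
    Sep (fun i j => M i j ^ p ^ a) T := by
  obtain ⟨τ, i1, h1, u, w, h2⟩ := h
  refine ⟨τ, i1, h1, fun t i => u t i ^ p ^ a, fun t j => w t j ^ p ^ a, fun i j => ?_⟩
  simp only
  rw [h2, sum_pow_char_pow]
  refine Finset.sum_congr rfl fun t _ => ?_
  rw [mul_pow]

lemma rank_le_of_sep [Fintype m] [Fintype n] {M : Matrix m n F} {T : ℕ}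
    (h : Sep (fun i j => M i j) T) : M.rank ≤ T := by
  obtain ⟨τ, i1, h1, u, w, h2⟩ := h
  have h3 : M = (Matrix.of fun i t => u t i) * (Matrix.of fun t j => w t j) := by
    ext i j
    rw [Matrix.mul_apply]
    exact h2 i j
  rw [h3]
  exact ((Matrix.rank_mul_le_left _ _).trans (Matrix.rank_le_card_width _)).trans h1

end sep

section plane

variable {F : Type} [Field F]

/-- the value of the equation of the line `l` at the point `P` -/
def ev (P l : F × F) : F := P.2 - l.1 * P.1 - l.2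

lemma sep_ev_pow (n : ℕ) : Sep (fun P l : F × F => ev P l ^ n) (∑ s ∈ range (n + 1), (s + 1)) := by
  have h1 : ∀ s : ℕ, Sep (fun P l : F × F => (P.2 - l.1 * P.1) ^ s) (s + 1) := by
    intro s
    have h2 := sep_sum (fun t (P l : F × F) =>
      (P.2 ^ t * (-P.1) ^ (s - t) * (s.choose t : F)) * l.1 ^ (s - t)) (fun _ => 1)
      (fun t => sep_one _ _) (s + 1)
    rw [Finset.sum_const, Finset.card_range, smul_eq_mul, mul_one] at h2
    refine sep_congr h2 fun P l => ?_
    rw [show P.2 - l.1 * P.1 = P.2 + (-P.1) * l.1 by ring, add_pow]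
    refine Finset.sum_congr rfl fun t _ => ?_
    rw [mul_pow]
    ring
  have h2 := sep_sum (fun s (P l : F × F) => (P.2 - l.1 * P.1) ^ s *
    (1 * ((-l.2) ^ (n - s) * (n.choose s : F)))) (fun s => s + 1)
    (fun s => by simpa using sep_mul (h1 s) (sep_one (fun _ : F × F => (1 : F))
      (fun l => (-l.2) ^ (n - s) * (n.choose s : F)))) (n + 1)
  refine sep_congr h2 fun P l => ?_
  unfold ev
  rw [show P.2 - l.1 * P.1 - l.2 = (P.2 - l.1 * P.1) + (-l.2) by ring, add_pow]
  refine Finset.sum_congr rfl fun t _ => ?_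
  ring

lemma geom_aux (p : ℕ) (hp : 1 ≤ p) (h : ℕ) : (∑ s ∈ range h, p ^ s) * (p - 1) = p ^ h - 1 := by
  obtain ⟨q, rfl⟩ : ∃ q, p = q + 1 := ⟨p - 1, by omega⟩
  rw [Nat.add_sub_cancel]
  have h1 : (∑ s ∈ range h, (q + 1) ^ s) * q + 1 = (q + 1) ^ h := by
    induction h with
    | zero => simp
    | succ h ih =>
      rw [Finset.sum_range_succ, pow_succ]
      nlinarith
  omega

lemma sum_succ_eq (p : ℕ) : 2 * ∑ s ∈ range p, (s + 1) = p * (p + 1) := by
  induction p with
  | zero => simp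
  | succ p ih => rw [Finset.sum_range_succ, mul_add, ih]; ring

/-- the incidence relation has small rank -/
lemma sep_inc (p h : ℕ) [Fact p.Prime] [CharP F p] [Fintype F] (hq : Fintype.card F = p ^ h) :
    Sep (fun P l : F × F => if ev P l = 0 then (1 : F) else 0)
      (1 + (∑ s ∈ range p, (s + 1)) ^ h) := by
  have hp : 1 ≤ p := (Fact.out : p.Prime).one_le
  have h1 : Sep (fun P l : F × F => ev P l ^ (p - 1)) (∑ s ∈ range p, (s + 1)) := by
    have := sep_ev_pow (F := F) (p - 1)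
    rwa [Nat.sub_add_cancel hp] at this
  have h2 := sep_prod (fun a (P l : F × F) => (ev P l ^ (p - 1)) ^ p ^ a) _
    (fun a => sep_frob p h1 a) h
  have h3 : Sep (fun P l : F × F => (-1 : F) * (1 : F) * ∏ s ∈ range h, (ev P l ^ (p - 1)) ^ p ^ s)
      (1 * (∑ s ∈ range p, (s + 1)) ^ h) :=
    sep_mul (sep_one (fun _ => (-1 : F)) (fun _ => (1 : F))) h2
  rw [one_mul] at h3
  refine sep_congr (sep_add (sep_one (fun _ : F × F => (1 : F)) (fun _ : F × F => (1 : F))) h3)
    fun P l => ?_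
  have h4 : ∏ s ∈ range h, (ev P l ^ (p - 1)) ^ p ^ s = ev P l ^ (p ^ h - 1) := by
    simp only [← pow_mul]
    rw [Finset.prod_pow_eq_pow_sum]
    congr 1
    rw [← Finset.mul_sum, mul_comm]
    exact geom_aux p hp h
  rw [h4, ← hq]
  split_ifs with h5
  · rw [h5, zero_pow]
    · ring
    · have := Fintype.one_lt_card (α := F)
      omega
  · rw [FiniteField.pow_card_sub_one_eq_one _ h5]
    ring

/-- the incidence graph of the points of the affine plane and the lines that are not vertical -/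
def plane (F : Type) [Field F] : SimpleGraph ((F × F) ⊕ (F × F)) where
  Adj a b := match a, b with
    | Sum.inl P, Sum.inr l => ev P l = 0
    | Sum.inr l, Sum.inl P => ev P l = 0
    | _, _ => False
  symm := ⟨by rintro (P | l) (Q | m) h <;> exact h⟩
  loopless := ⟨by rintro (P | l) h <;> exact h⟩

lemma plane_free : (SimpleGraph.cycleGraph (2 * 2)).Free (plane F) := by
  intro h
  obtain ⟨c, h1, h2, h3⟩ := Pool.Agent.Y428.Ab.cyc_fun (plane F) 4 (by norm_num) h
  have key : ∀ a b c d : (F × F) ⊕ (F × F), (plane F).Adj a b → (plane F).Adj b c →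
      (plane F).Adj c d → (plane F).Adj d a → a ≠ c → b ≠ d → False := by
    have key2 : ∀ P Q l m : F × F, ev P l = 0 → ev Q l = 0 → ev Q m = 0 → ev P m = 0 → P ≠ Q →
        l ≠ m → False := by
      rintro ⟨x, y⟩ ⟨x', y'⟩ ⟨m, b⟩ ⟨m', b'⟩ e1 e2 e3 e4 hPQ hlm
      unfold ev at e1 e2 e3 e4
      simp only at e1 e2 e3 e4
      have e5 : (m - m') * (x - x') = 0 := by linear_combination e2 - e1 - e3 + e4
      rcases mul_eq_zero.1 e5 with e6 | e6
      · have e7 : m = m' := sub_eq_zero.1 e6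
        subst e7
        apply hlm
        have : b = b' := by linear_combination e4 - e1
        rw [this]
      · have e7 : x = x' := sub_eq_zero.1 e6
        subst e7
        apply hPQ
        have : y = y' := by linear_combination e1 - e2
        rw [this]
    rintro (a | a) (b | b) (c | c) (d | d) e1 e2 e3 e4 hac hbd <;>
      first
      | exact e1
      | exact e2
      | exact e3
      | exact e4
      | exact key2 a c b d e1 e2 e3 e4 (fun h => hac (by rw [h])) (fun h => hbd (by rw [h]))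
      | exact key2 b d a c e1 e4 e3 e2 (fun h => hbd (by rw [h])) (fun h => hac (by rw [h]))
  refine key (c 0) (c 1) (c 2) (c 3) (h1 0) (h1 1) (h1 2) ?_ ?_ ?_
  · have := h1 3
    rwa [show 3 + 1 = 4 from rfl, h2] at this
  · intro h
    have := h3 0 2 h
    norm_num at this
  · intro h
    have := h3 1 3 h
    norm_num at this

lemma plane_edges [Fintype F] : Fintype.card F ^ 3 ≤ (plane F).edgeSet.ncard := by
  have h1 : (Finset.univ : Finset (F × F × F)).card ≤ (plane F).edgeFinset.card := by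
    refine Finset.card_le_card_of_injOn
      (fun t => s(Sum.inl (t.1, t.2.1 * t.1 + t.2.2), Sum.inr (t.2.1, t.2.2))) ?_ ?_
    · rintro ⟨x, m, b⟩ _
      rw [Finset.mem_coe, SimpleGraph.mem_edgeFinset, SimpleGraph.mem_edgeSet]
      change ev _ _ = 0
      unfold ev
      simp only
      ring
    · rintro ⟨x, m, b⟩ _ ⟨x', m', b'⟩ _ h
      simp only at h
      rw [Sym2.eq_iff] at h
      rcases h with ⟨h1, h2⟩ | ⟨h1, h2⟩
      · simp only [Sum.inl.injEq, Sum.inr.injEq, Prod.mk.injEq] at h1 h2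
        rw [h1.1, h2.1, h2.2]
      · cases h1
  rw [Finset.card_univ, Fintype.card_prod, Fintype.card_prod] at h1
  rw [← SimpleGraph.coe_edgeFinset, Set.ncard_coe_finset]
  calc Fintype.card F ^ 3 = Fintype.card F * (Fintype.card F * Fintype.card F) := by ring
    _ ≤ _ := h1

lemma plane_rank (p h : ℕ) [Fact p.Prime] [CharP F p] [Fintype F] (hq : Fintype.card F = p ^ h) :
    ((plane F).adjMatrix F).rank ≤ 2 * (1 + (∑ s ∈ range p, (s + 1)) ^ h) := by
  obtain ⟨τ, i1, h1, u, w, h2⟩ := sep_inc (F := F) p h hq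
  rw [two_mul]
  apply rank_le_of_sep
  refine sep_congr (M := fun a b => (∑ t, (Sum.elim (u t) (fun _ => 0) a) *
      (Sum.elim (fun _ => 0) (w t) b)) + (∑ t, (Sum.elim (fun _ => 0) (w t) a) *
      (Sum.elim (u t) (fun _ => 0) b))) (sep_add ⟨τ, i1, h1, _, _, fun _ _ => rfl⟩
      ⟨τ, i1, h1, _, _, fun _ _ => rfl⟩) ?_
  rintro (P | l) (Q | m)
  · simp [SimpleGraph.adjMatrix_apply, plane]
  · simp only [SimpleGraph.adjMatrix_apply, Sum.elim_inl, Sum.elim_inr, mul_zero,
      Finset.sum_const_zero, add_zero]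
    rw [← h2]
    rfl
  · simp only [SimpleGraph.adjMatrix_apply, Sum.elim_inl, Sum.elim_inr, mul_zero,
      Finset.sum_const_zero, zero_add]
    have h3 : ∑ t, w t l * u t Q = ∑ t, u t Q * w t l :=
      Finset.sum_congr rfl fun t _ => mul_comm _ _
    rw [h3, ← h2]
    rfl
  · simp [SimpleGraph.adjMatrix_apply, plane]

end plane

/-- the bound fails in every positive characteristic -/
theorem charP_fails (p : ℕ) (hp : p.Prime) (C : ℕ) : ∃ (F : Type) (_ : Field F) (_ : CharP F p)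
    (V : Type) (_ : Fintype V) (G : SimpleGraph V),
    (SimpleGraph.cycleGraph (2 * 2)).Free G ∧
    C * (G.adjMatrix F).rank * Fintype.card V ^ 2 < G.edgeSet.ncard ^ 2 := by
  have hpf : Fact p.Prime := ⟨hp⟩
  obtain ⟨h, hh⟩ : ∃ h : ℕ, (3 / 4 : ℝ) ^ h < 1 / (16 * C + 1) :=
    exists_pow_lt_of_lt_one (by positivity) (by norm_num)
  have hh' : (3 / 4 : ℝ) ^ (h + 1) < 1 / (16 * C + 1) := by
    refine lt_of_le_of_lt ?_ hh
    rw [pow_succ]
    have : (0 : ℝ) ≤ (3 / 4) ^ h := by positivity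
    linarith
  let F := GaloisField p (h + 1)
  have : Finite F := by
    have h1 := GaloisField.card p (h + 1) (by omega)
    exact Nat.finite_of_card_ne_zero (by rw [h1]; exact (pow_pos hp.pos _).ne')
  let _ := Fintype.ofFinite F
  have hq : Fintype.card F = p ^ (h + 1) := by
    rw [← Nat.card_eq_fintype_card]
    exact GaloisField.card p (h + 1) (by omega)
  refine ⟨F, inferInstance, inferInstance, (F × F) ⊕ (F × F), inferInstance, plane F, plane_free, ?_⟩
  have h1 := plane_rank (F := F) p (h + 1) hq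
  have h2 := plane_edges (F := F)
  obtain ⟨q, hqq⟩ : ∃ q, q = Fintype.card F := ⟨_, rfl⟩
  obtain ⟨T, hT⟩ : ∃ T, T = ∑ s ∈ range p, (s + 1) := ⟨_, rfl⟩
  rw [← hT] at h1
  rw [← hqq] at h2
  have hV : Fintype.card ((F × F) ⊕ (F × F)) = 2 * q ^ 2 := by
    rw [Fintype.card_sum, Fintype.card_prod, ← hqq]
    ring
  have hT1 : 1 ≤ T := by
    rw [hT]
    exact Nat.one_le_iff_ne_zero.2 fun h0 => by
      have := (Finset.sum_eq_zero_iff.1 h0) 0 (Finset.mem_range.2 hp.pos)
      omega
  have hT4 : 4 * T ≤ 3 * p ^ 2 := by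
    have h3 := sum_succ_eq p
    rw [← hT] at h3
    have h4 := hp.two_le
    nlinarith
  have hq0 : 0 < q := by rw [hqq]; exact Fintype.card_pos
  -- the main estimate
  have h5 : 8 * C * (1 + T ^ (h + 1)) < q ^ 2 := by
    have hTp : 1 ≤ T ^ (h + 1) := Nat.one_le_pow _ _ hT1
    have h6 : (16 * C * T ^ (h + 1) : ℝ) < (q : ℝ) ^ 2 := by
      have h7 : (T : ℝ) ^ (h + 1) ≤ (3 / 4) ^ (h + 1) * (q : ℝ) ^ 2 := by
        have h8 : (T : ℝ) ≤ 3 / 4 * (p : ℝ) ^ 2 := by
          have : (4 * T : ℝ) ≤ 3 * (p : ℝ) ^ 2 := by exact_mod_cast hT4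
          linarith
        calc (T : ℝ) ^ (h + 1) ≤ (3 / 4 * (p : ℝ) ^ 2) ^ (h + 1) :=
              pow_le_pow_left₀ (Nat.cast_nonneg _) h8 _
          _ = (3 / 4) ^ (h + 1) * (q : ℝ) ^ 2 := by
              rw [mul_pow, hqq, hq]
              push_cast
              ring
      have hq2 : (0 : ℝ) < (q : ℝ) ^ 2 := by
        have : (0 : ℝ) < q := by exact_mod_cast hq0
        positivity
      have hC : (0 : ℝ) < 16 * C + 1 := by positivity
      have h9 : (3 / 4 : ℝ) ^ (h + 1) * (16 * C + 1) < 1 := by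
        rwa [lt_div_iff₀ hC] at hh'
      have h10 : (0 : ℝ) < (3 / 4 : ℝ) ^ (h + 1) := by positivity
      have h11 : (0 : ℝ) ≤ C := Nat.cast_nonneg C
      calc (16 * C * T ^ (h + 1) : ℝ) ≤ 16 * C * ((3 / 4) ^ (h + 1) * (q : ℝ) ^ 2) := by
            gcongr
        _ = ((3 / 4 : ℝ) ^ (h + 1) * (16 * C)) * (q : ℝ) ^ 2 := by ring
        _ < 1 * (q : ℝ) ^ 2 := by
            refine mul_lt_mul_of_pos_right ?_ hq2
            linarith
        _ = _ := one_mul _
    have h7 : 16 * C * T ^ (h + 1) < q ^ 2 := by exact_mod_cast h6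
    nlinarith [Nat.zero_le C]
  rw [hV]
  calc C * ((plane F).adjMatrix F).rank * (2 * q ^ 2) ^ 2
      ≤ C * (2 * (1 + T ^ (h + 1))) * (2 * q ^ 2) ^ 2 :=
        Nat.mul_le_mul_right _ (Nat.mul_le_mul_left _ h1)
    _ = (8 * C * (1 + T ^ (h + 1))) * q ^ 4 := by ring
    _ < q ^ 2 * q ^ 4 := Nat.mul_lt_mul_of_pos_right h5 (pow_pos hq0 _)
    _ = (q ^ 3) ^ 2 := by ring
    _ ≤ _ := Nat.pow_le_pow_left h2 2

end Pool.Agent.W5h94.RK
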