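import Mathlib
import Pool.Agent.W5h94.RK.CharP

/-!
# The statements on the rank
-/

set_option autoImplicit false

open Finset Classical

namespace Pool.Agent.W5h94.RK

variable {V : Type} [Fintype V]

/-- the edges that meet `Z` -/
def onZ (G : SimpleGraph V) (Z : Finset V) : SimpleGraph V where
  Adj x y := G.Adj x y ∧ (x ∈ Z ∨ y ∈ Z)
  symm := ⟨fun _ _ h => ⟨h.1.symm, h.2.symm⟩⟩
  loopless := ⟨fun _ h => G.irrefl h.1⟩

lemma dartsAt_eq (G : SimpleGraph V) (Z : Finset V) :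
    dartsAt G Z = 2 * {e ∈ G.edgeSet | ∃ z ∈ Z, z ∈ e}.ncard := by
  have h1 : {e ∈ G.edgeSet | ∃ z ∈ Z, z ∈ e} = (onZ G Z).edgeSet := by
    ext e
    induction e with
    | _ x y =>
      rw [Set.mem_sep_iff, SimpleGraph.mem_edgeSet, SimpleGraph.mem_edgeSet]
      refine and_congr Iff.rfl ?_
      constructor
      · rintro ⟨z, hz, hzz⟩
        rcases Sym2.mem_iff.1 hzz with rfl | rfl
        · exact Or.inl hz
        · exact Or.inr hz
      · rintro (h | h)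
        · exact ⟨x, h, Sym2.mem_mk_left x y⟩
        · exact ⟨y, h, Sym2.mem_mk_right x y⟩
  rw [h1, ← darts_eq]
  unfold dartsAt darts
  refine Finset.sum_congr rfl fun x _ => ?_
  congr 1
  ext y
  rw [Finset.mem_filter, Finset.mem_filter]
  exact Iff.rfl

lemma relErr_nonneg (B L : Matrix V V ℝ) : 0 ≤ relErr B L := Finset.sum_nonneg fun x _ =>
    div_nonneg (Finset.sum_nonneg fun _ _ => sq_nonneg _) (rowSq_nonneg B x)

theorem all_three (k : ℕ) (hk : 2 ≤ k) (K : ℝ) : ∃ C : ℝ, 0 < C ∧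
    ∀ (V : Type) [Fintype V] (G : SimpleGraph V), (SimpleGraph.cycleGraph (2 * k)).Free G →
    ∀ B L : Matrix V V ℝ, IsWeighting G K B →
      (∃ Z : Finset V, (Z.card : ℝ) ≤ C * (L.rank + relErr B L) ∧
        (G.edgeSet.ncard : ℝ) ≤ (1 + K ^ 2) * ({e ∈ G.edgeSet | ∃ z ∈ Z, z ∈ e}.ncard : ℝ)) ∧
      (G.edgeSet.ncard : ℝ) ^ k ≤ C * (L.rank + relErr B L) * (Fintype.card V : ℝ) ^ k ∧
      ∀ ε : ℝ, 0 < ε → ε * (Fintype.card V : ℝ) ^ (1 + 1 / (k : ℝ)) ≤ G.edgeSet.ncard →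
        ε ^ k * Fintype.card V ≤ C * (L.rank + relErr B L) := by
  obtain ⟨C0, hC0, h⟩ := edges_le k hk K
  obtain ⟨M, hM⟩ : ∃ M : ℝ, M = 8 * (1 + 16 * k * K ^ 4) := ⟨_, rfl⟩
  have hkK : (0 : ℝ) ≤ k * K ^ 4 := mul_nonneg (Nat.cast_nonneg k) (by positivity)
  have hM8 : 8 ≤ M := by rw [hM]; linarith
  refine ⟨C0 + M, by linarith, ?_⟩
  intro V _ G hG B L hB
  have hr : 0 ≤ relErr B L := relErr_nonneg B L
  have hrk : (0 : ℝ) ≤ L.rank := Nat.cast_nonneg _
  have hn0 : (0 : ℝ) ≤ Fintype.card V := Nat.cast_nonneg _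
  have h2 : (G.edgeSet.ncard : ℝ) ^ k ≤
      (C0 + M) * (L.rank + relErr B L) * (Fintype.card V : ℝ) ^ k := by
    refine (h V G hG B L hB).trans ?_
    refine mul_le_mul_of_nonneg_right ?_ (by positivity)
    exact mul_le_mul_of_nonneg_right (by linarith) (by linarith)
  refine ⟨?_, h2, ?_⟩
  · obtain ⟨Z, hZ1, hZ2⟩ := cover hk hG hB L
    refine ⟨Z, ?_, ?_⟩
    · refine hZ1.trans ?_
      have h3 : 2 * (4 * (1 + 16 * k * K ^ 4) * L.rank + 4 * relErr B L) ≤
          M * (L.rank + relErr B L) := by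
        rw [hM]
        have h1 : (0 : ℝ) ≤ k * K ^ 4 * relErr B L := mul_nonneg hkK hr
        nlinarith
      refine h3.trans ?_
      exact mul_le_mul_of_nonneg_right (by linarith) (by linarith)
    · rw [darts_eq, dartsAt_eq] at hZ2
      push_cast at hZ2
      linarith
  · intro ε hε he
    have hk0 : (k : ℝ) ≠ 0 := by
      have : k ≠ 0 := by omega
      exact_mod_cast this
    rcases eq_or_lt_of_le hn0 with hn | hn
    · rw [← hn, mul_zero]
      exact mul_nonneg (by linarith) (by linarith)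
    · have h4 : ε ^ k * (Fintype.card V : ℝ) ^ (k + 1) ≤ (G.edgeSet.ncard : ℝ) ^ k := by
        have h5 := pow_le_pow_left₀ (by positivity) he k
        rw [mul_pow, ← Real.rpow_natCast (_ ^ (1 + 1 / (k : ℝ))) k, ← Real.rpow_mul hn0] at h5
        have h6 : (1 + 1 / (k : ℝ)) * k = ((k + 1 : ℕ) : ℝ) := by
          push_cast
          field_simp
        rw [h6, Real.rpow_natCast] at h5
        exact h5
      have h7 : (ε ^ k * Fintype.card V) * (Fintype.card V : ℝ) ^ k ≤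
          ((C0 + M) * (L.rank + relErr B L)) * (Fintype.card V : ℝ) ^ k := by
        calc _ = ε ^ k * (Fintype.card V : ℝ) ^ (k + 1) := by ring
          _ ≤ _ := h4.trans h2
      exact le_of_mul_le_mul_right h7 (by positivity)

theorem covers (k : ℕ) (hk : 2 ≤ k) (V : Type) [Fintype V] (G : SimpleGraph V)
    (hG : (SimpleGraph.cycleGraph (2 * k)).Free G) (B : Matrix V V ℝ) (hB : IsWeighting G 1 B) :
    (∃ Z : Finset V, (∀ x y, G.Adj x y → x ∈ Z ∨ y ∈ Z) ∧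
      Z.card ≤ 8 * (1 + 16 * k) * B.rank * (Nat.log 2 G.edgeSet.ncard + 1)) ∧
    ∀ Z : Finset V, (∀ x y, G.Adj x y → x ∈ Z ∨ y ∈ Z) → B.rank ≤ 2 * Z.card :=
  ⟨cover_all hk B.rank _ G rfl hG B hB le_rfl, fun Z hZ => rank_le_cover hB Z hZ⟩

end Pool.Agent.W5h94.RK
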